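import Pool.Agent.H459R3.EU.Defs

/-!
Definitions: `C¹` approximate solutions of the Euler equations, classical solutions, balls of the
Sobolev space `H^m` of divergence-free periodic fields.
-/

open MeasureTheory Set
open scoped ContDiff

namespace Pool.Agent.L5helper80.AP

open H459R3.NS H459R3.EU

/-- The squared distance `∑ᵢ ∫ (uᵢ - vᵢ)²` in `L²` of the period cell. -/
noncomputable def dst (u v : V → V) : ℝ := ∑ i, ∫ x in cube, (u x i - v x i) ^ 2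

/-- `(v, q)` is a `1`-periodic divergence-free trial field on the time interval `[0, T)`: `v` is
continuous on `[0, T) × ℝ³` and `C¹` on `(0, T) × ℝ³`; `q(t, ·)` is `C¹`; both are `1`-periodic and
`div v = 0`. No equation is required. -/
structure Trial (T : ℝ) (v : ℝ → V → V) (q : ℝ → V → ℝ) : Prop where
  cont : ContinuousOn (fun z : ℝ × V => v z.1 z.2) (Ico 0 T ×ˢ univ)
  c1 : ContDiffOn ℝ 1 (fun z : ℝ × V => v z.1 z.2) (Ioo 0 T ×ˢ univ)
  c1_q : ∀ t ∈ Ioo 0 T, ContDiff ℝ 1 (q t)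
  per : ∀ t ∈ Ioo 0 T, Per (v t)
  per_q : ∀ t ∈ Ioo 0 T, Per (q t)
  divfree : ∀ t ∈ Ioo 0 T, ∀ x, ∑ i, pd i (fun y => v t y i) x = 0

/-- The residual `∂ₜ vᵢ + ∑ⱼ vⱼ ∂ⱼ vᵢ + ∂ᵢ q` of the Euler equations at `(t, x)`. -/
noncomputable def resid (v : ℝ → V → V) (q : ℝ → V → ℝ) (t : ℝ) (i : Fin 3) (x : V) : ℝ :=
  deriv (fun s => v s x i) t + ∑ j, v t x j * pd j (fun y => v t y i) x + pd i (q t) x

/-- `(v, q)` is a classical solution of the Euler equations on `[0, T)`: `v` and `q` are `C¹` on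
`[0, T) × ℝ³` and `1`-periodic in space, `div v = 0` and `∂ₜ vᵢ + ∑ⱼ vⱼ ∂ⱼ vᵢ = -∂ᵢ q`. -/
structure Classical (T : ℝ) (v : ℝ → V → V) (q : ℝ → V → ℝ) : Prop where
  c1 : ContDiffOn ℝ 1 (fun z : ℝ × V => v z.1 z.2) (Ico 0 T ×ˢ univ)
  c1_q : ContDiffOn ℝ 1 (fun z : ℝ × V => q z.1 z.2) (Ico 0 T ×ˢ univ)
  per : ∀ t ∈ Ico 0 T, Per (v t)
  per_q : ∀ t ∈ Ico 0 T, Per (q t)
  divfree : ∀ t ∈ Ico 0 T, ∀ x, ∑ i, pd i (fun y => v t y i) x = 0
  momentum : ∀ t ∈ Ioo 0 T, ∀ x i,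
    deriv (fun s => v s x i) t + ∑ j, v t x j * pd j (fun y => v t y i) x = -pd i (q t) x

/-- The weight `1 + |k|²`. -/
noncomputable def wt (k : K3) : ℝ := 1 + ∑ j, (k j : ℝ) ^ 2

/-- `a` belongs to the ball of radius `R` of the space of the `1`-periodic divergence-free vector
fields with components in `H^m`, with the norm `(∑ₖ (1 + |k|²)^m |â(k)|²)^(1/2)`. (For `m ≥ 2` the
elements of `H^m` are continuous functions; `div a = 0` is `k · â(k) = 0` for all `k`.) -/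
structure HBall (m : ℕ) (R : ℝ) (a : V → V) : Prop where
  cont : Continuous a
  per : Per a
  div : ∀ k : K3, ∑ i, (k i : ℂ) * fr (fun x => a x i) k = 0
  bound : ∀ F : Finset K3, ∑ k ∈ F, wt k ^ m * ∑ i, ‖fr (fun x => a x i) k‖ ^ 2 ≤ R ^ 2

end Pool.Agent.L5helper80.AP
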