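import Pool.Agent.L5helper80.AP.Strain

/-!
The rate of change of the `L²` distance between a smooth solution and a `C¹` approximate solution:
the estimate at a fixed time.
-/

open MeasureTheory Set Filter Topology
open scoped ContDiff

namespace Pool.Agent.L5helper80.AP

open H459R3.NS H459R3.EU Pool.Agent.TH340.PS

theorem CP.ibp {f g : V → ℝ} (hf : CP f) (hg : CP g) (j : Fin 3) :
    ∫ x in cube, pd j f x * g x = -∫ x in cube, f x * pd j g x := by
  have h := integral_pd (hf.mul hg).c1 (hf.mul hg).per j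
  simp_rw [hf.pd_mul hg] at h
  rw [integral_add (integrableOn_cube (hf.cont.fun_mul (hg.pd_cont j)))
    (integrableOn_cube ((hf.pd_cont j).fun_mul hg.cont))] at h
  linarith

section static

variable {U : Fin 3 → V → ℝ} (hU : ∀ i, SP (U i)) (dU : ∀ x, ∑ i, pd i (U i) x = 0)
  {W : Fin 3 → V → ℝ} (hW : ∀ i, CP (W i)) (dW : ∀ x, ∑ i, pd i (W i) x = 0)

include hU dU in
theorem transport_CP {g : V → ℝ} (hg : CP g) :
    ∑ j, ∫ x in cube, U j x * pd j g x = 0 := by
  have h1 : ∀ j, ∫ x in cube, U j x * pd j g x = -∫ x in cube, pd j (U j) x * g x := by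
    intro j
    rw [(hU j).cp.ibp hg j]
    ring
  simp_rw [h1]
  rw [Finset.sum_neg_distrib, ← integral_finsetSum _ fun j _ =>
    (integrableOn_cube (((hU j).pd j).cont.fun_mul hg.cont))]
  have : ∀ x, ∑ j, pd j (U j) x * g x = 0 := by
    intro x
    rw [← Finset.sum_mul, dU, zero_mul]
  simp_rw [this]
  simp

include hW dW in
theorem press_CP {q : V → ℝ} (hq : CP q) : ∑ i, ∫ x in cube, W i x * pd i q x = 0 := by
  have h1 : ∀ i, ∫ x in cube, W i x * pd i q x = -∫ x in cube, pd i (W i) x * q x := by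
    intro i
    rw [(hW i).ibp hq i]; ring
  simp_rw [h1]
  rw [Finset.sum_neg_distrib, ← integral_finsetSum _ fun i _ =>
    (integrableOn_cube (((hW i).pd_cont i).fun_mul hq.cont))]
  simp_rw [← Finset.sum_mul, dW]
  simp

include hU dU in
/-- the estimate at a fixed time -/
theorem static {Z : Fin 3 → V → ℝ} (hZ : ∀ i, CP (Z i)) (dZ : ∀ x, ∑ i, pd i (Z i) x = 0)
    {P Q : V → ℝ} (hP : SP P) (hQ : CP Q) {ν : ℝ} (hν : 0 ≤ ν) {A B R : Fin 3 → V → ℝ}
    (hA : ∀ i x, A i x = ν * lap (U i) x - conv U i x - pd i P x)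
    (hR : ∀ i, Continuous (R i))
    (hB : ∀ i x, B i x = R i x - ∑ j, Z j x * pd j (Z i) x - pd i Q x)
    {β l : ℝ} (hβ : ∀ i j x, |str Z i j x| ≤ β) (hl : 0 < l) :
    ∑ i, ∫ x in cube, 2 * (U i x - Z i x) * (A i x - B i x)
      ≤ (6 * β + l) * (∑ i, ∫ x in cube, (U i x - Z i x) ^ 2)
        + l⁻¹ * (∑ i, ∫ x in cube, R i x ^ 2)
        + ν / 2 * ∑ i, ∑ j, ∫ x in cube, pd j (Z i) x ^ 2 := by
  set W : Fin 3 → V → ℝ := fun i x => U i x - Z i x with hWdef
  have hW : ∀ i, CP (W i) := fun i => (hU i).cp.sub (hZ i)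
  have dW : ∀ x, ∑ i, pd i (W i) x = 0 := by
    intro x
    have : ∀ i, pd i (W i) x = pd i (U i) x - pd i (Z i) x := fun i => (hU i).cp.pd_sub (hZ i) i x
    simp_rw [this]
    rw [Finset.sum_sub_distrib, dU, dZ, sub_zero]
  have cU : ∀ i, Continuous (U i) := fun i => (hU i).cont
  have cZ : ∀ i, Continuous (Z i) := fun i => (hZ i).cont
  have cW : ∀ i, Continuous (W i) := fun i => (hW i).cont
  have cL : ∀ i, Continuous (lap (U i)) := fun i => (hU i).lap.cont
  have hPQ : CP (fun x => P x - Q x) := hP.cp.sub hQ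
  -- pointwise identity
  have hpt : ∀ x, ∑ i, 2 * W i x * (A i x - B i x)
      = 2 * ν * (∑ i, W i x * lap (U i) x) - (∑ i, ∑ j, U j x * pd j (fun y => W i y * W i y) x)
        - 2 * (∑ i, ∑ j, W i x * W j x * str Z i j x)
        - 2 * (∑ i, W i x * pd i (fun x => P x - Q x) x) - 2 * ∑ i, W i x * R i x := by
    intro x
    have e1 : ∀ i j, pd j (fun y => W i y * W i y) x = 2 * (W i x * (pd j (U i) x - pd j (Z i) x)) := by
      intro i j
      rw [(hW i).pd_mul (hW i) j x]
      have : pd j (W i) x = pd j (U i) x - pd j (Z i) x := (hU i).cp.pd_sub (hZ i) j x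
      rw [this]; ring
    have e2 : ∀ i, pd i (fun x => P x - Q x) x = pd i P x - pd i Q x := fun i =>
      hP.cp.pd_sub hQ i x
    simp_rw [e1, e2, hA, hB]
    unfold conv str
    simp only [hWdef, Fin.sum_univ_three]
    ring
  -- the sum of the integrals
  have cA : ∀ i, Continuous (A i) := by
    intro i
    have : A i = fun x => ν * lap (U i) x - conv U i x - pd i P x := funext (hA i)
    rw [this]
    exact ((continuous_const.fun_mul (cL i)).fun_sub (sp_conv hU i).cont).fun_sub (hP.pd i).cont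
  have cB : ∀ i, Continuous (B i) := by
    intro i
    have : B i = fun x => R i x - ∑ j, Z j x * pd j (Z i) x - pd i Q x := funext (hB i)
    rw [this]
    exact ((hR i).fun_sub (continuous_finsetSum _ fun j _ => (cZ j).fun_mul ((hZ i).pd_cont j))).fun_sub
      (hQ.pd_cont i)
  have c1 : Continuous (fun x => ∑ i, W i x * lap (U i) x) :=
    continuous_finsetSum _ fun i _ => (cW i).fun_mul (cL i)
  have hWW : ∀ i, CP (fun y => W i y * W i y) := fun i => (hW i).mul (hW i)
  have c2 : Continuous (fun x => ∑ i, ∑ j, U j x * pd j (fun y => W i y * W i y) x) :=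
    continuous_finsetSum _ fun i _ => continuous_finsetSum _ fun j _ =>
      (cU j).fun_mul ((hWW i).pd_cont j)
  have c3 : Continuous (fun x => ∑ i, ∑ j, W i x * W j x * str Z i j x) :=
    continuous_finsetSum _ fun i _ => continuous_finsetSum _ fun j _ =>
      ((cW i).fun_mul (cW j)).fun_mul (str_cont hZ i j)
  have c4 : Continuous (fun x => ∑ i, W i x * pd i (fun x => P x - Q x) x) :=
    continuous_finsetSum _ fun i _ => (cW i).fun_mul (hPQ.pd_cont i)
  have c5 : Continuous (fun x => ∑ i, W i x * R i x) :=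
    continuous_finsetSum _ fun i _ => (cW i).fun_mul (hR i)
  have hsum : ∑ i, ∫ x in cube, 2 * W i x * (A i x - B i x)
      = 2 * ν * (∫ x in cube, ∑ i, W i x * lap (U i) x)
        - (∫ x in cube, ∑ i, ∑ j, U j x * pd j (fun y => W i y * W i y) x)
        - 2 * (∫ x in cube, ∑ i, ∑ j, W i x * W j x * str Z i j x)
        - 2 * (∫ x in cube, ∑ i, W i x * pd i (fun x => P x - Q x) x)
        - 2 * ∫ x in cube, ∑ i, W i x * R i x := by
    rw [← integral_finsetSum _ fun i _ => (integrableOn_cube
      ((continuous_const.fun_mul (cW i)).fun_mul ((cA i).fun_sub (cB i))))]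
    simp_rw [hpt]
    rw [integral_sub (integrableOn_cube ((((continuous_const.fun_mul c1).fun_sub c2).fun_sub
        (continuous_const.fun_mul c3)).fun_sub (continuous_const.fun_mul c4)))
        (integrableOn_cube (continuous_const.fun_mul c5)),
      integral_sub (integrableOn_cube (((continuous_const.fun_mul c1).fun_sub c2).fun_sub
        (continuous_const.fun_mul c3))) (integrableOn_cube (continuous_const.fun_mul c4)),
      integral_sub (integrableOn_cube ((continuous_const.fun_mul c1).fun_sub c2))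
        (integrableOn_cube (continuous_const.fun_mul c3)),
      integral_sub (integrableOn_cube (continuous_const.fun_mul c1)) (integrableOn_cube c2),
      integral_const_mul, integral_const_mul, integral_const_mul, integral_const_mul]
  -- the transport term and the pressure term vanish
  have z2 : ∫ x in cube, ∑ i, ∑ j, U j x * pd j (fun y => W i y * W i y) x = 0 := by
    rw [integral_finsetSum _ fun i _ => (integrableOn_cube (continuous_finsetSum _ fun j _ =>
      (cU j).fun_mul ((hWW i).pd_cont j)))]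
    refine Finset.sum_eq_zero fun i _ => ?_
    rw [integral_finsetSum _ fun j _ => (integrableOn_cube ((cU j).fun_mul ((hWW i).pd_cont j)))]
    exact transport_CP hU dU (hWW i)
  have z4 : ∫ x in cube, ∑ i, W i x * pd i (fun x => P x - Q x) x = 0 := by
    rw [integral_finsetSum _ fun i _ => (integrableOn_cube ((cW i).fun_mul (hPQ.pd_cont i)))]
    exact press_CP hW dW hPQ
  -- the viscous term
  have z1 : 2 * ν * (∫ x in cube, ∑ i, W i x * lap (U i) x)
      ≤ ν / 2 * ∑ i, ∑ j, ∫ x in cube, pd j (Z i) x ^ 2 := by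
    have h1 : ∫ x in cube, ∑ i, W i x * lap (U i) x
        = ∑ i, ∑ j, ∫ x in cube, -(pd j (W i) x * pd j (U i) x) := by
      rw [integral_finsetSum _ fun i _ => (integrableOn_cube ((cW i).fun_mul (cL i)))]
      refine Finset.sum_congr rfl fun i _ => ?_
      unfold lap
      simp_rw [Finset.mul_sum]
      rw [integral_finsetSum _ fun j _ => (integrableOn_cube ((cW i).fun_mul (((hU i).pd j).pd j).cont))]
      refine Finset.sum_congr rfl fun j _ => ?_
      rw [integral_neg, (hW i).ibp ((hU i).pd j).cp j, neg_neg]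
    have h2 : ∀ i j, 4 * ∫ x in cube, -(pd j (W i) x * pd j (U i) x)
        ≤ ∫ x in cube, pd j (Z i) x ^ 2 := by
      intro i j
      have cw : Continuous (pd j (W i)) := (hW i).pd_cont j
      have cu : Continuous (pd j (U i)) := ((hU i).pd j).cont
      have cz : Continuous (pd j (Z i)) := (hZ i).pd_cont j
      rw [← integral_const_mul]
      refine integral_mono (integrableOn_cube (continuous_const.fun_mul (cw.fun_mul cu).fun_neg))
        (integrableOn_cube (cz.fun_pow 2)) fun x => ?_
      have : pd j (W i) x = pd j (U i) x - pd j (Z i) x := (hU i).cp.pd_sub (hZ i) j x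
      simp only [this]
      nlinarith [sq_nonneg (2 * pd j (U i) x - pd j (Z i) x)]
    rw [h1]
    have h3 : 4 * (∑ i, ∑ j, ∫ x in cube, -(pd j (W i) x * pd j (U i) x))
        ≤ ∑ i, ∑ j, ∫ x in cube, pd j (Z i) x ^ 2 := by
      rw [Finset.mul_sum]
      refine Finset.sum_le_sum fun i _ => ?_
      rw [Finset.mul_sum]
      exact Finset.sum_le_sum fun j _ => h2 i j
    calc _ = ν / 2 * (4 * (∑ i, ∑ j, ∫ x in cube, -(pd j (W i) x * pd j (U i) x))) := by ring
      _ ≤ _ := mul_le_mul_of_nonneg_left h3 (by positivity)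
  -- the stretching term
  have hE : ∑ i, ∫ x in cube, W i x ^ 2 = ∫ x in cube, ∑ i, W i x ^ 2 :=
    (integral_finsetSum _ fun i _ => (integrableOn_cube ((cW i).fun_pow 2))).symm
  have hRR : ∑ i, ∫ x in cube, R i x ^ 2 = ∫ x in cube, ∑ i, R i x ^ 2 :=
    (integral_finsetSum _ fun i _ => (integrableOn_cube ((hR i).fun_pow 2))).symm
  have cW2 : Continuous (fun x => ∑ i, W i x ^ 2) := continuous_finsetSum _ fun i _ => (cW i).fun_pow 2
  have cR2 : Continuous (fun x => ∑ i, R i x ^ 2) := continuous_finsetSum _ fun i _ => (hR i).fun_pow 2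
  have z3 : -(2 * (∫ x in cube, ∑ i, ∑ j, W i x * W j x * str Z i j x))
      ≤ 6 * β * ∫ x in cube, ∑ i, W i x ^ 2 := by
    rw [← integral_const_mul, ← integral_const_mul, ← integral_neg]
    refine integral_mono (integrableOn_cube (continuous_const.fun_mul c3).fun_neg)
      (integrableOn_cube (continuous_const.fun_mul cW2)) fun x => ?_
    have h1 : |∑ i, ∑ j, W i x * W j x * str Z i j x| ≤ β * (∑ i, |W i x|) ^ 2 := by
      rw [sq, Finset.sum_mul_sum, Finset.mul_sum]
      refine (Finset.abs_sum_le_sum_abs _ _).trans (Finset.sum_le_sum fun i _ => ?_)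
      rw [Finset.mul_sum]
      refine (Finset.abs_sum_le_sum_abs _ _).trans (Finset.sum_le_sum fun j _ => ?_)
      rw [abs_mul, abs_mul, mul_comm]
      exact mul_le_mul_of_nonneg_right (hβ i j x) (by positivity)
    have h2 : (∑ i, |W i x|) ^ 2 ≤ 3 * ∑ i, W i x ^ 2 := by
      simp only [Fin.sum_univ_three]
      have a0 := sq_abs (W 0 x)
      have a1 := sq_abs (W 1 x)
      have a2 := sq_abs (W 2 x)
      nlinarith [sq_nonneg (|W 0 x| - |W 1 x|), sq_nonneg (|W 0 x| - |W 2 x|),
        sq_nonneg (|W 1 x| - |W 2 x|)]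
    have hβ0 : 0 ≤ β := (abs_nonneg _).trans (hβ 0 0 x)
    have h3 := (abs_le.1 h1).1
    have h4 := mul_le_mul_of_nonneg_left h2 hβ0
    show -(2 * ∑ i, ∑ j, W i x * W j x * str Z i j x) ≤ 6 * β * ∑ i, W i x ^ 2
    nlinarith
  have z5 : -(2 * ∫ x in cube, ∑ i, W i x * R i x)
      ≤ l * (∫ x in cube, ∑ i, W i x ^ 2) + l⁻¹ * ∫ x in cube, ∑ i, R i x ^ 2 := by
    rw [← integral_const_mul, ← integral_const_mul, ← integral_const_mul, ← integral_neg,
      ← integral_add (integrableOn_cube (continuous_const.fun_mul cW2))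
        (integrableOn_cube (continuous_const.fun_mul cR2))]
    refine integral_mono (integrableOn_cube (continuous_const.fun_mul c5).fun_neg)
      (integrableOn_cube ((continuous_const.fun_mul cW2).fun_add (continuous_const.fun_mul cR2))) fun x => ?_
    show -(2 * ∑ i, W i x * R i x) ≤ l * ∑ i, W i x ^ 2 + l⁻¹ * ∑ i, R i x ^ 2
    have h1 : ∀ i, -(2 * (W i x * R i x)) ≤ l * W i x ^ 2 + l⁻¹ * R i x ^ 2 := by
      intro i
      have h2 : 0 ≤ l⁻¹ * (l * W i x + R i x) ^ 2 := by positivity
      have e : l⁻¹ * (l * W i x + R i x) ^ 2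
          = l * W i x ^ 2 + l⁻¹ * R i x ^ 2 + 2 * (W i x * R i x) := by
        field_simp
        ring
      rw [e] at h2
      linarith
    rw [Finset.mul_sum, Finset.mul_sum, Finset.mul_sum, ← Finset.sum_neg_distrib,
      ← Finset.sum_add_distrib]
    exact Finset.sum_le_sum fun i _ => h1 i
  rw [hsum, z2, z4, hE, hRR]
  nlinarith

end static

end Pool.Agent.L5helper80.AP
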