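import Pool.Agent.L5helper80.AP.Energy

/-!
Evolution of the `L²` distance between a smooth solution and a trial field.
-/

open MeasureTheory Set Filter Topology
open scoped ContDiff

namespace Pool.Agent.L5helper80.AP

open H459R3.NS H459R3.EU Pool.Agent.TH340.PS

/-- comparison of functions on `[0, T)` -/
theorem fence {f f' B B' : ℝ → ℝ} {T : ℝ} (hf : ContinuousOn f (Ico 0 T))
    (hf' : ∀ t ∈ Ioo 0 T, HasDerivAt f (f' t) t) (hB : ContinuousOn B (Ico 0 T))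
    (hB' : ∀ t ∈ Ioo 0 T, HasDerivAt B (B' t) t) (h0 : f 0 < B 0)
    (hlt : ∀ t ∈ Ioo 0 T, f t = B t → f' t < B' t) : ∀ t ∈ Ico 0 T, f t ≤ B t := by
  intro t ht
  rcases ht.1.eq_or_lt with h | h
  · rw [← h]; exact h0.le
  have h1 : ∀ᶠ s in 𝓝[Ico 0 T] (0 : ℝ), f s < B s :=
    (hf 0 ⟨le_rfl, h.trans ht.2⟩).eventually_lt (hB 0 ⟨le_rfl, h.trans ht.2⟩) h0
  have h2 : 𝓝[Ico 0 T] (0 : ℝ) = 𝓝[Ici 0] (0 : ℝ) := nhdsWithin_Ico_eq_nhdsGE (h.trans ht.2)
  rw [h2] at h1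
  have h3 : ∀ᶠ s in 𝓝[Ioi 0] (0 : ℝ), f s < B s :=
    h1.filter_mono (nhdsWithin_mono _ Ioi_subset_Ici_self)
  have h4 : ∀ᶠ s in 𝓝[Ioi 0] (0 : ℝ), s ∈ Ioo 0 t := Ioo_mem_nhdsGT h
  obtain ⟨s, hs1, hs2⟩ := (h3.and h4).exists
  have hsub : Icc s t ⊆ Ico 0 T := fun z hz => ⟨hs2.1.le.trans hz.1, hz.2.trans_lt ht.2⟩
  have hsub' : ∀ z ∈ Ico s t, z ∈ Ioo 0 T := fun z hz =>
    ⟨hs2.1.trans_le hz.1, hz.2.trans ht.2⟩
  exact image_le_of_deriv_right_lt_deriv_boundary' (hf.mono hsub)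
    (fun z hz => (hf' z (hsub' z hz)).hasDerivWithinAt) hs1.le (hB.mono hsub)
    (fun z hz => (hB' z (hsub' z hz)).hasDerivWithinAt) (fun z hz => hlt z (hsub' z hz))
    ⟨hs2.2.le, le_rfl⟩

section

variable {ν T : ℝ} {u : ℝ → V → V} {p : ℝ → V → ℝ} {v : ℝ → V → V} {q : ℝ → V → ℝ}

theorem Trial.c1_comp (hv : Trial T v q) (i : Fin 3) :
    ContDiffOn ℝ 1 (fun z : ℝ × V => v z.1 z.2 i) (Ioo 0 T ×ˢ univ) :=
  (contDiffOn_pi.1 hv.c1) i

theorem Trial.cp (hv : Trial T v q) {t : ℝ} (ht : t ∈ Ioo 0 T) (i : Fin 3) :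
    CP (fun y => v t y i) where
  c1 := by
    rw [← contDiffOn_univ]
    exact (hv.c1_comp i).comp (contDiff_const.prodMk contDiff_id).contDiffOn
      (fun x _ => ⟨ht, mem_univ _⟩)
  per := fun j x => by simp only [hv.per t ht j x]

theorem Trial.cp_q (hv : Trial T v q) {t : ℝ} (ht : t ∈ Ioo 0 T) : CP (q t) :=
  ⟨hv.c1_q t ht, hv.per_q t ht⟩

theorem Trial.dt_cont (hv : Trial T v q) {t : ℝ} (ht : t ∈ Ioo 0 T) (i : Fin 3) :
    Continuous (fun x => deriv (fun s => v s x i) t) := by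
  have hO : IsOpen (Ioo 0 T ×ˢ (univ : Set V)) := isOpen_Ioo.prod isOpen_univ
  have hd : ContinuousOn (fun z : ℝ × V =>
      fderiv ℝ (fun z : ℝ × V => v z.1 z.2 i) z (1, 0)) (Ioo 0 T ×ˢ univ) :=
    ((hv.c1_comp i).continuousOn_fderiv_of_isOpen hO le_rfl).clm_apply continuousOn_const
  have h := hd.comp_continuous (f := fun x : V => ((t, x) : ℝ × V)) (by fun_prop)
    (fun x => ⟨ht, mem_univ _⟩)
  refine h.congr fun x => ?_
  exact ((hasDerivAt_slice (F := fun s x => v s x i) (hv.c1_comp i) ht x).deriv).symm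

theorem Trial.resid_cont (hv : Trial T v q) {t : ℝ} (ht : t ∈ Ioo 0 T) (i : Fin 3) :
    Continuous (resid v q t i) := by
  unfold resid
  exact ((hv.dt_cont ht i).fun_add (continuous_finsetSum _ fun j _ =>
    (hv.cp ht j).cont.fun_mul ((hv.cp ht i).pd_cont j))).fun_add ((hv.cp_q ht).pd_cont i)

/-- `∑ᵢⱼ ∫ (∂ⱼ vᵢ)²` -/
noncomputable def grad2 (v : V → V) : ℝ := ∑ i, ∑ j, ∫ x in cube, pd j (fun y => v y i) x ^ 2

theorem dst_hasDerivAt (h : IsSol ν T u p) (hv : Trial T v q) {t : ℝ} (ht : t ∈ Ioo 0 T) :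
    HasDerivAt (fun s => dst (u s) (v s)) (∑ i, ∫ x in cube, 2 * (u t x i - v t x i)
      * (dt (fun s y => u s y i) t x - deriv (fun s => v s x i) t)) t := by
  unfold dst
  refine HasDerivAt.fun_sum fun i _ => ?_
  have hu1 : ContDiffOn ℝ 1 (fun z : ℝ × V => u z.1 z.2 i) (Ioo 0 T ×ˢ univ) :=
    mono_Ioo (f := fun s y => u s y i) (h.smooth_c i) (by norm_cast)
  have hF : ContDiffOn ℝ 1 (fun z : ℝ × V => (u z.1 z.2 i - v z.1 z.2 i) ^ 2)
      (Ioo 0 T ×ˢ univ) := (hu1.sub (hv.c1_comp i)).pow 2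
  have key := hasDerivAt_int (F := fun s x => (u s x i - v s x i) ^ 2) hF ht
  refine key.congr_deriv ?_
  congr 1
  funext x
  have h2 : HasDerivAt (fun s => u s x i) (dt (fun s y => u s y i) t x) t := by
    have := hasDerivAt_slice (F := fun s y => u s y i) hu1 ht x
    rwa [← H459R3.NS.dt_eq (f := fun s y => u s y i) (h.smooth_c i) ht x] at this
  have h3 : HasDerivAt (fun s => v s x i) (deriv (fun s => v s x i) t) t := by
    have := hasDerivAt_slice (F := fun s y => v s y i) (hv.c1_comp i) ht x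
    rwa [← this.deriv] at this
  have h4 : HasDerivAt (fun s => (u s x i - v s x i) ^ 2) _ t := (h2.fun_sub h3).fun_pow 2
  rw [h4.deriv]
  push_cast
  ring

theorem dst_deriv_le (hν : 0 ≤ ν) (h : IsSol ν T u p) (hv : Trial T v q) {t : ℝ}
    (ht : t ∈ Ioo 0 T) {β l : ℝ}
    (hβ : ∀ i j x, |str (fun i y => v t y i) i j x| ≤ β) (hl : 0 < l) :
    ∑ i, ∫ x in cube, 2 * (u t x i - v t x i)
      * (dt (fun s y => u s y i) t x - deriv (fun s => v s x i) t)
      ≤ (6 * β + l) * dst (u t) (v t) + l⁻¹ * (∑ i, ∫ x in cube, resid v q t i x ^ 2)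
        + ν / 2 * grad2 (v t) := by
  have hI : t ∈ Ico 0 T := ⟨ht.1.le, ht.2⟩
  exact static (U := fun i y => u t y i) (fun i => h.sp hI i) (h.divfree t hI)
    (Z := fun i y => v t y i) (fun i => hv.cp ht i) (hv.divfree t ht) (h.sp_p hI) (hv.cp_q ht)
    hν (A := fun i => dt (fun s y => u s y i) t) (B := fun i x => deriv (fun s => v s x i) t)
    (R := resid v q t) (fun i x => h.dt_eq ht i x) (fun i => hv.resid_cont ht i)
    (fun i x => by unfold resid; ring) hβ hl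

theorem dst_continuousOn (h : IsSol ν T u p) (hv : Trial T v q) :
    ContinuousOn (fun s => dst (u s) (v s)) (Ico 0 T) := by
  unfold dst
  refine continuousOn_finsetSum _ fun i _ => ?_
  have hc : ContinuousOn (fun z : ℝ × V => v z.1 z.2 i) (Ico 0 T ×ˢ univ) :=
    (continuousOn_pi.1 hv.cont) i
  exact continuousOn_int (F := fun s x => (u s x i - v s x i) ^ 2)
    (((h.smooth_c i).continuousOn.sub hc).pow 2)

end

end Pool.Agent.L5helper80.AP
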