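import Pool.Agent.L5helper80.AP.Mean
import Pool.Agent.L5helper80.AP.Defs

/-!
The strain of a smooth field near a `C¹` field with bounded strain.
-/

open MeasureTheory Set Filter Topology
open scoped ContDiff

namespace Pool.Agent.L5helper80.AP

open H459R3.NS H459R3.EU Pool.Agent.TH340.PS

theorem mv_abs_le {f : V → ℝ} {β : ℝ} (hb : ∀ x, |f x| ≤ β) {r : ℝ}
    (hr : 0 < r) (x : V) : |mv r f x| ≤ β := by
  have hN := int_bmp3_pos hr
  have i0 : Integrable fun y => bmp 3 r y := by
    have := int_bmp 2 r (f := fun _ => 1) continuous_const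
    simpa using this
  have h1 : |∫ y, bmp 3 r y * f (x + y)| ≤ ∫ y, bmp 3 r y * β := by
    rw [← Real.norm_eq_abs]
    refine norm_integral_le_of_norm_le (i0.mul_const β) (Eventually.of_forall fun y => ?_)
    rw [norm_mul, Real.norm_eq_abs, Real.norm_eq_abs, abs_of_nonneg (bmp_nonneg _ _ _)]
    exact mul_le_mul_of_nonneg_left (hb _) (bmp_nonneg _ _ _)
  unfold mv
  rw [abs_mul, abs_of_pos (inv_pos.2 hN)]
  calc _ ≤ (∫ y, bmp 3 r y)⁻¹ * ∫ y, bmp 3 r y * β :=
        mul_le_mul_of_nonneg_left h1 (inv_nonneg.2 hN.le)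
    _ = β := by rw [integral_mul_const]; field_simp

/-- `C¹` periodic functions -/
structure CP (f : V → ℝ) : Prop where
  c1 : ContDiff ℝ 1 f
  per : Per f

theorem _root_.H459R3.NS.SP.cp {f : V → ℝ} (h : SP f) : CP f := ⟨h.smooth.of_le (by norm_cast), h.per⟩

theorem CP.cont {f : V → ℝ} (h : CP f) : Continuous f := h.c1.continuous

theorem CP.diff {f : V → ℝ} (h : CP f) (x : V) : DifferentiableAt ℝ f x :=
  (h.c1.differentiable one_ne_zero) x

theorem CP.pd_cont {f : V → ℝ} (h : CP f) (j : Fin 3) : Continuous (pd j f) :=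
  (h.c1.continuous_fderiv one_ne_zero).clm_apply continuous_const

theorem CP.sub {f g : V → ℝ} (hf : CP f) (hg : CP g) : CP (fun x => f x - g x) where
  c1 := hf.c1.sub hg.c1
  per := fun i x => by simp only [hf.per i x, hg.per i x]

theorem CP.mul {f g : V → ℝ} (hf : CP f) (hg : CP g) : CP (fun x => f x * g x) where
  c1 := hf.c1.mul hg.c1
  per := fun i x => by simp only [hf.per i x, hg.per i x]

theorem CP.add {f g : V → ℝ} (hf : CP f) (hg : CP g) : CP (fun x => f x + g x) where
  c1 := hf.c1.add hg.c1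
  per := fun i x => by simp only [hf.per i x, hg.per i x]

theorem CP.pd_sub {f g : V → ℝ} (hf : CP f) (hg : CP g) (j : Fin 3) (x : V) :
    H459R3.NS.pd j (fun y => f y - g y) x = H459R3.NS.pd j f x - H459R3.NS.pd j g x := by
  unfold H459R3.NS.pd
  have h : HasFDerivAt (fun y => f y - g y) _ x :=
    (hf.diff x).hasFDerivAt.sub (hg.diff x).hasFDerivAt
  rw [h.fderiv]
  simp only [sub_apply]

theorem CP.pd_mul {f g : V → ℝ} (hf : CP f) (hg : CP g) (j : Fin 3) (x : V) :
    H459R3.NS.pd j (fun y => f y * g y) x = f x * H459R3.NS.pd j g x + H459R3.NS.pd j f x * g x := by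
  unfold H459R3.NS.pd
  have h : HasFDerivAt (fun y => f y * g y) _ x :=
    (hf.diff x).hasFDerivAt.mul (hg.diff x).hasFDerivAt
  rw [h.fderiv]
  simp only [ContinuousLinearMap.add_apply, smul_apply, smul_eq_mul]
  ring

theorem CP.int {f : V → ℝ} (hf : CP f) : IntegrableOn f cube := integrableOn_cube hf.cont

theorem str_cont {v : Fin 3 → V → ℝ} (hv : ∀ i, CP (v i)) (i j : Fin 3) :
    Continuous (str v i j) := by
  unfold str
  exact (((hv j).pd_cont i).add ((hv i).pd_cont j)).div_const 2

/-- the averaged strain -/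
theorem mv_str_split {u v : Fin 3 → V → ℝ} (hu : ∀ i, SP (u i)) (hv : ∀ i, CP (v i)) (r : ℝ)
    (i j : Fin 3) (x : V) :
    mv r (str u i j) x = mv r (str v i j) x
      + (1 / 2 * mv r (pd i (fun y => u j y - v j y)) x
        + 1 / 2 * mv r (pd j (fun y => u i y - v i y)) x) := by
  have e1 : str u i j = fun y => str v i j y + (1 / 2 * pd i (fun y => u j y - v j y) y
      + 1 / 2 * pd j (fun y => u i y - v i y) y) := by
    funext y
    rw [(hu j).cp.pd_sub (hv j), (hu i).cp.pd_sub (hv i)]
    unfold str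
    ring
  have c1 : Continuous (pd i (fun y => u j y - v j y)) := ((hu j).cp.sub (hv j)).pd_cont i
  have c2 : Continuous (pd j (fun y => u i y - v i y)) := ((hu i).cp.sub (hv i)).pd_cont j
  rw [e1, mv_add (f := str v i j) (g := fun y => 1 / 2 * pd i (fun y => u j y - v j y) y
      + 1 / 2 * pd j (fun y => u i y - v i y) y) (str_cont hv i j)
      ((continuous_const.mul c1).add (continuous_const.mul c2)),
    mv_add (f := fun y => 1 / 2 * pd i (fun y => u j y - v j y) y)
      (g := fun y => 1 / 2 * pd j (fun y => u i y - v i y) y) (continuous_const.mul c1)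
      (continuous_const.mul c2), mv_const_mul, mv_const_mul]

theorem dst_nonneg (u v : V → V) : 0 ≤ dst u v :=
  Finset.sum_nonneg fun _ _ => integral_nonneg fun _ => sq_nonneg _

theorem sp_bounded {f : V → ℝ} (hf : SP f) : ∃ M, ∀ x, |f x| ≤ M := by
  refine ⟨∑' k, ‖fr f k‖, fun x => ?_⟩
  have h := norm_S_le (rap_fr hf).summable x
  rw [S_fr hf, Complex.norm_real, Real.norm_eq_abs] at h
  exact h

/-- the strain of `u` at a point -/
theorem strain_le {u v : V → V} (hu : ∀ i, SP (fun y => u y i)) (hv : ∀ i, CP (fun y => v y i))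
    {β : ℝ} (hβ : ∀ i j x, |str (fun i y => v y i) i j x| ≤ β) {r : ℝ} (hr : 0 < r)
    (hr2 : r ≤ 1 / 2) (i j : Fin 3) (x : V) :
    |str (fun i y => u y i) i j x| ≤ β + Real.sqrt (kap * dst u v / r ^ 5)
      + 18 * Real.sqrt C7 * (r ^ (1 / 4 : ℝ) * Real.sqrt (dsq u)) := by
  -- some bound for the strain
  have hb : ∃ s, BS (fun i y => u y i) s (Real.sqrt (dsq u)) := by
    choose M hM using fun p : Fin 3 × Fin 3 => sp_bounded (sp_str hu p.1 p.2)
    refine ⟨∑ p, |M p|, hu, fun i j x => ?_, fun l i j k => nrm_le_third u l i j k⟩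
    refine (hM (i, j) x).trans ((le_abs_self _).trans ?_)
    exact Finset.single_le_sum (f := fun p => |M p|) (fun _ _ => abs_nonneg _)
      (Finset.mem_univ (i, j))
  obtain ⟨s, hs⟩ := hb
  have h1 : |str (fun i y => u y i) i j x - mv r (str (fun i y => u y i) i j) x|
      ≤ 18 * Real.sqrt C7 * (r ^ (1 / 4 : ℝ) * Real.sqrt (dsq u)) := by
    refine (mv_sub_le (sp_str hu i j) x hr).trans ?_
    have h3 := nrm_lap_str hs i j
    calc _ ≤ 6 * Real.sqrt C7 * (r ^ (1 / 4 : ℝ) * (3 * Real.sqrt (dsq u))) := by gcongr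
      _ = _ := by ring
  have h2 : ∀ i j, |mv r (pd i (fun y => u y j - v y j)) x|
      ≤ Real.sqrt (kap * dst u v / r ^ 5) := by
    intro i j
    refine Real.abs_le_sqrt ?_
    have hc := (hu j).cp.sub (hv j)
    refine (mean_sq_le hc.c1 hc.per hr hr2 x i).trans ?_
    have h4 : ∫ y in cube, (u y j - v y j) ^ 2 ≤ dst u v :=
      Finset.single_le_sum (f := fun j => ∫ y in cube, (u y j - v y j) ^ 2)
        (fun _ _ => integral_nonneg fun _ => sq_nonneg _) (Finset.mem_univ j)
    have := kap_nonneg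
    gcongr
  have h5 := mv_abs_le (hβ i j) hr x
  have h6 := mv_str_split (u := fun i y => u y i) (v := fun i y => v y i) hu hv r i j x
  have h7 := h2 i j
  have h8 := h2 j i
  have e : str (fun i y => u y i) i j x = (str (fun i y => u y i) i j x
      - mv r (str (fun i y => u y i) i j) x) + mv r (str (fun i y => u y i) i j) x := by ring
  have h9 : |mv r (str (fun i y => v y i) i j) x
      + (1 / 2 * mv r (pd i (fun y => u y j - v y j)) x
        + 1 / 2 * mv r (pd j (fun y => u y i - v y i)) x)|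
      ≤ β + Real.sqrt (kap * dst u v / r ^ 5) := by
    refine (abs_add_le _ _).trans (add_le_add h5 ?_)
    refine (abs_add_le _ _).trans ?_
    rw [abs_mul, abs_mul, abs_of_pos (by norm_num : (0 : ℝ) < 1 / 2)]
    linarith
  rw [← h6] at h9
  rw [e]
  have h10 := abs_add_le (str (fun i y => u y i) i j x - mv r (str (fun i y => u y i) i j) x)
    (mv r (str (fun i y => u y i) i j) x)
  linarith

end Pool.Agent.L5helper80.AP
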