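import Pool.Agent.L5helper80.AP.Defs
import Pool.Agent.L5helper80.AP.Strain

/-!
Compactness of the balls of `H^m` in `L²`.
-/

open MeasureTheory Set Filter Topology
open scoped ContDiff

namespace Pool.Agent.L5helper80.AP

open H459R3.NS H459R3.EU Pool.Agent.TH340.PS

theorem wt_pos (k : K3) : 0 < wt k := by
  have : 0 ≤ ∑ j, (k j : ℝ) ^ 2 := Finset.sum_nonneg fun _ _ => sq_nonneg _
  unfold wt
  linarith

theorem one_le_wt (k : K3) : 1 ≤ wt k := by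
  have : 0 ≤ ∑ j, (k j : ℝ) ^ 2 := Finset.sum_nonneg fun _ _ => sq_nonneg _
  unfold wt
  linarith

theorem summable_wt {m : ℕ} (hm : 3 ≤ m) : Summable fun k : K3 => (wt k ^ m)⁻¹ := by
  refine Summable.of_nonneg_of_le (fun k => by have := wt_pos k; positivity) (fun k => ?_)
    summable_K3
  have h1 : wt k ^ 3 ≤ wt k ^ m := pow_le_pow_right₀ (one_le_wt k) hm
  have h2 : ∀ j, 1 + (k j : ℝ) ^ 2 ≤ wt k := fun j => by
    have : (k j : ℝ) ^ 2 ≤ ∑ j, (k j : ℝ) ^ 2 :=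
      Finset.single_le_sum (f := fun j => (k j : ℝ) ^ 2) (fun _ _ => sq_nonneg _)
        (Finset.mem_univ j)
    unfold wt
    linarith
  have h0 := wt_pos k
  have h3 : (1 + (k 0 : ℝ) ^ 2) * ((1 + (k 1 : ℝ) ^ 2) * (1 + (k 2 : ℝ) ^ 2)) ≤ wt k ^ 3 := by
    calc _ ≤ wt k * (wt k * wt k) := by
          gcongr
          · exact h2 0
          · exact h2 1
          · exact h2 2
      _ = _ := by ring
  have e : 1 / (1 + (k 0 : ℝ) ^ 2) * (1 / (1 + (k 1 : ℝ) ^ 2) * (1 / (1 + (k 2 : ℝ) ^ 2)))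
      = ((1 + (k 0 : ℝ) ^ 2) * ((1 + (k 1 : ℝ) ^ 2) * (1 + (k 2 : ℝ) ^ 2)))⁻¹ := by
    field_simp
  rw [e]
  exact inv_anti₀ (by positivity) (h3.trans h1)

/-- bounds for one coefficient -/
theorem coef_le {m : ℕ} {R : ℝ} {b : Fin 3 → K3 → ℂ}
    (hb : ∀ F : Finset K3, ∑ k ∈ F, wt k ^ m * ∑ i, ‖b i k‖ ^ 2 ≤ R ^ 2) (i : Fin 3) (k : K3) :
    ‖b i k‖ ^ 2 ≤ R ^ 2 * (wt k ^ m)⁻¹ := by
  have h := hb {k}
  rw [Finset.sum_singleton] at h
  have h1 : ‖b i k‖ ^ 2 ≤ ∑ i, ‖b i k‖ ^ 2 :=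
    Finset.single_le_sum (f := fun i => ‖b i k‖ ^ 2) (fun _ _ => sq_nonneg _) (Finset.mem_univ i)
  have h0 := wt_pos k
  rw [← div_eq_mul_inv, le_div_iff₀ (by positivity), mul_comm]
  exact (mul_le_mul_of_nonneg_left h1 (by positivity)).trans h

theorem summable_coef {m : ℕ} (hm : 3 ≤ m) {R : ℝ} {b : Fin 3 → K3 → ℂ}
    (hb : ∀ F : Finset K3, ∑ k ∈ F, wt k ^ m * ∑ i, ‖b i k‖ ^ 2 ≤ R ^ 2) (i : Fin 3) :
    Summable (b i) := by
  have h1 : Summable fun k => wt k ^ m * ∑ i, ‖b i k‖ ^ 2 :=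
    summable_of_sum_le (fun k => by have := wt_pos k; positivity) hb
  refine Summable.of_norm (Summable.of_nonneg_of_le (fun k => norm_nonneg _) (fun k => ?_)
    ((summable_wt hm).add h1))
  have h0 := wt_pos k
  have h2 : ‖b i k‖ ^ 2 ≤ ∑ i, ‖b i k‖ ^ 2 :=
    Finset.single_le_sum (f := fun i => ‖b i k‖ ^ 2) (fun _ _ => sq_nonneg _) (Finset.mem_univ i)
  have h3 : wt k ^ m * ‖b i k‖ ^ 2 ≤ wt k ^ m * ∑ i, ‖b i k‖ ^ 2 :=
    mul_le_mul_of_nonneg_left h2 (by positivity)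
  have h4 : 2 * ‖b i k‖ ≤ (wt k ^ m)⁻¹ + wt k ^ m * ‖b i k‖ ^ 2 := by
    have hw : 0 < wt k ^ m := by positivity
    have h5 : 0 ≤ (wt k ^ m)⁻¹ * (wt k ^ m * ‖b i k‖ - 1) ^ 2 := by positivity
    have e : (wt k ^ m)⁻¹ * (wt k ^ m * ‖b i k‖ - 1) ^ 2
        = (wt k ^ m)⁻¹ + wt k ^ m * ‖b i k‖ ^ 2 - 2 * ‖b i k‖ := by
      field_simp
      ring
    linarith
  have := norm_nonneg (b i k)
  linarith

theorem fr_neg (f : V → ℝ) (k : K3) : fr f (-k) = (starRingEnd ℂ) (fr f k) := by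
  unfold fr fc
  rw [← integral_conj]
  congr 1
  funext x
  rw [map_mul, Complex.conj_ofReal, ee_neg, ee_neg]

/-- the field with given coefficients -/
theorem exists_field {m : ℕ} (hm : 3 ≤ m) {R : ℝ} {b : Fin 3 → K3 → ℂ}
    (hb : ∀ F : Finset K3, ∑ k ∈ F, wt k ^ m * ∑ i, ‖b i k‖ ^ 2 ≤ R ^ 2)
    (hd : ∀ k : K3, ∑ i, (k i : ℂ) * b i k = 0)
    (hc : ∀ i k, b i (-k) = (starRingEnd ℂ) (b i k)) :
    ∃ a : V → V, HBall m R a ∧ ∀ i x, ((a x i : ℝ) : ℂ) = S (b i) x := by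
  have hs := fun i => summable_coef hm hb i
  have hreal : ∀ i x, (starRingEnd ℂ) (S (b i) x) = S (b i) x := by
    intro i x
    unfold S
    rw [Complex.conj_tsum, ← (Equiv.neg K3).tsum_eq]
    refine tsum_congr fun k => ?_
    simp only [Equiv.neg_apply, map_mul, ee_neg, hc, Complex.conj_conj]
  refine ⟨fun x i => (S (b i) x).re, ?_, fun i x => Complex.conj_eq_iff_re.1 (hreal i x)⟩
  have he : ∀ i, fr (fun x => (S (b i) x).re) = b i := by
    intro i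
    funext k
    unfold fr fc
    have e1 : ∀ x, ((((S (b i) x).re : ℝ)) : ℂ) = S (b i) x := fun x =>
      Complex.conj_eq_iff_re.1 (hreal i x)
    simp_rw [e1]
    rw [integral_ee_S (-k) (hs i), neg_neg]
  refine ⟨?_, ?_, ?_, ?_⟩
  · exact continuous_pi fun i => Complex.continuous_re.comp (S_continuous (hs i))
  · intro j x
    funext i
    have : S (b i) (x + Pi.single j 1) = S (b i) x := by
      unfold S
      exact tsum_congr fun k => by rw [ee_per k j x]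
    simp only [this]
  · intro k
    simp_rw [he]
    exact hd k
  · intro F
    simp_rw [he]
    exact hb F

/-- the squared distance of two fields -/
theorem dst_eq {a c : V → V} {b d : Fin 3 → K3 → ℂ} (hb : ∀ i, Summable (b i))
    (hd : ∀ i, Summable (d i)) (ha : ∀ i x, ((a x i : ℝ) : ℂ) = S (b i) x)
    (hc : ∀ i x, ((c x i : ℝ) : ℂ) = S (d i) x) :
    dst a c = ∑ i, ∑' k, ‖b i k - d i k‖ ^ 2 := by
  unfold dst
  refine Finset.sum_congr rfl fun i _ => ?_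
  rw [← n2_sq, ← integral_norm_sq ((hb i).sub (hd i))]
  congr 1
  funext x
  have e : S (fun k => b i k - d i k) x = (((a x i - c x i : ℝ)) : ℂ) := by
    push_cast
    rw [ha, hc]
    unfold S
    rw [← (summable_term (hb i) x).tsum_sub (summable_term (hd i) x)]
    exact tsum_congr fun k => by ring
  rw [e, Complex.norm_real, Real.norm_eq_abs, sq_abs]

theorem HBall.coef {m : ℕ} (hm : 3 ≤ m) {R : ℝ} {a : V → V} (h : HBall m R a) (i : Fin 3) (x : V) :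
    ((a x i : ℝ) : ℂ) = S (fr (fun x => a x i)) x := by
  have hp : Per (fun x => a x i) := fun j x => by simp only [h.per j x]
  have hc : Continuous (fun x => ((a x i : ℝ) : ℂ)) :=
    Complex.continuous_ofReal.comp ((continuous_apply i).comp h.cont)
  exact (hasSum_fc (per_ofReal hp) hc (summable_coef hm h.bound i) x).tsum_eq.symm

/-- compactness -/
theorem compact {m : ℕ} (hm : 3 ≤ m) {R : ℝ} {a : ℕ → V → V} (h : ∀ n, HBall m R (a n)) :
    ∃ c : V → V, HBall m R c ∧ ∃ φ : ℕ → ℕ, StrictMono φ ∧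
      Tendsto (fun n => dst (a (φ n)) c) atTop (𝓝 0) := by
  set b : ℕ → Fin 3 → K3 → ℂ := fun n i => fr (fun x => a n x i) with hb
  have hbb : ∀ n i k, ‖b n i k‖ ≤ |R| := by
    intro n i k
    have h1 := coef_le (h n).bound i k
    have h2 : (wt k ^ m)⁻¹ ≤ 1 := inv_le_one_of_one_le₀ (one_le_pow₀ (one_le_wt k))
    have h3 : ‖b n i k‖ ^ 2 ≤ R ^ 2 := h1.trans (by nlinarith [sq_nonneg R])
    exact (sq_le_sq₀ (norm_nonneg _) (abs_nonneg R)).1 (by rw [sq_abs]; exact h3)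
  have hK : IsCompact (Set.pi univ fun _ : Fin 3 × K3 => Metric.closedBall (0 : ℂ) |R|) :=
    isCompact_univ_pi fun _ => isCompact_closedBall _ _
  obtain ⟨g, -, φ, hφ, hlim⟩ := hK.tendsto_subseq (x := fun n (p : Fin 3 × K3) => b n p.1 p.2)
    (fun n p _ => by
      rw [Metric.mem_closedBall, dist_zero_right]
      exact hbb n p.1 p.2)
  rw [tendsto_pi_nhds] at hlim
  set d : Fin 3 → K3 → ℂ := fun i k => g (i, k) with hd
  have hl : ∀ i k, Tendsto (fun n => b (φ n) i k) atTop (𝓝 (d i k)) := fun i k => hlim (i, k)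
  have hdb : ∀ F : Finset K3, ∑ k ∈ F, wt k ^ m * ∑ i, ‖d i k‖ ^ 2 ≤ R ^ 2 := by
    intro F
    have h1 : Tendsto (fun n => ∑ k ∈ F, wt k ^ m * ∑ i, ‖b (φ n) i k‖ ^ 2) atTop
        (𝓝 (∑ k ∈ F, wt k ^ m * ∑ i, ‖d i k‖ ^ 2)) :=
      tendsto_finsetSum _ fun k _ => (tendsto_finsetSum _ fun i _ =>
        ((hl i k).norm.pow 2)).const_mul _
    exact le_of_tendsto' h1 fun n => (h (φ n)).bound F
  have hdd : ∀ k : K3, ∑ i, (k i : ℂ) * d i k = 0 := by
    intro k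
    have h1 : Tendsto (fun n => ∑ i, (k i : ℂ) * b (φ n) i k) atTop
        (𝓝 (∑ i, (k i : ℂ) * d i k)) :=
      tendsto_finsetSum _ fun i _ => (hl i k).const_mul _
    have h2 : (fun n => ∑ i, (k i : ℂ) * b (φ n) i k) = fun _ => 0 :=
      funext fun n => (h (φ n)).div k
    rw [h2] at h1
    exact (tendsto_nhds_unique h1 tendsto_const_nhds)
  have hdc : ∀ i k, d i (-k) = (starRingEnd ℂ) (d i k) := by
    intro i k
    have h1 := hl i (-k)
    have h2 := (Complex.continuous_conj.tendsto _).comp (hl i k)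
    refine tendsto_nhds_unique h1 (h2.congr fun n => ?_)
    exact (fr_neg _ _).symm
  obtain ⟨c, hc1, hc2⟩ := exists_field hm hdb hdd hdc
  refine ⟨c, hc1, φ, hφ, ?_⟩
  have hsb : ∀ n i, Summable (b n i) := fun n i => summable_coef hm (h n).bound i
  have hsd : ∀ i, Summable (d i) := fun i => summable_coef hm hdb i
  have e1 : ∀ n, dst (a (φ n)) c = ∑ i, ∑' k, ‖b (φ n) i k - d i k‖ ^ 2 := fun n =>
    dst_eq (hsb (φ n)) hsd (fun i x => (h (φ n)).coef hm i x) hc2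
  simp_rw [e1]
  have e2 : (0 : ℝ) = ∑ i : Fin 3, ∑' _ : K3, (0 : ℝ) := by simp
  rw [e2]
  refine tendsto_finsetSum _ fun i _ => ?_
  refine tendsto_tsum_of_dominated_convergence (bound := fun k => 4 * R ^ 2 * (wt k ^ m)⁻¹)
    ((summable_wt hm).mul_left _) (fun k => ?_) (Eventually.of_forall fun n k => ?_)
  · have h1 := (((hl i k).sub_const (d i k)).norm).pow 2
    simpa using h1
  · have h1 := coef_le (h (φ n)).bound i k
    have h2 := coef_le hdb i k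
    have h3 : ‖b (φ n) i k - d i k‖ ≤ ‖b (φ n) i k‖ + ‖d i k‖ := norm_sub_le _ _
    rw [Real.norm_eq_abs, abs_of_nonneg (sq_nonneg _)]
    have h4 : ‖b (φ n) i k - d i k‖ ^ 2 ≤ (‖b (φ n) i k‖ + ‖d i k‖) ^ 2 :=
      pow_le_pow_left₀ (norm_nonneg _) h3 2
    have h5 : (‖b (φ n) i k‖ + ‖d i k‖) ^ 2 ≤ 2 * ‖b (φ n) i k‖ ^ 2 + 2 * ‖d i k‖ ^ 2 := by
      nlinarith [sq_nonneg (‖b (φ n) i k‖ - ‖d i k‖)]
    have h6 : ‖b (φ n) i k‖ ^ 2 ≤ R ^ 2 * (wt k ^ m)⁻¹ := h1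
    linarith

/-- the third derivatives of the elements of the ball -/
theorem HBall.dsq_le {m : ℕ} (hm : 3 ≤ m) {R : ℝ} {a : V → V} (h : HBall m R a)
    (hs : ∀ i, SP (fun x => a x i)) : dsq a ≤ (9 * (2 * Real.pi) ^ 3 * R) ^ 2 := by
  have hpi := Real.pi_pos
  have key : ∀ l i j k, ∫ x in cube, d3 i j k (fun y => a y l) x ^ 2
      ≤ ((2 * Real.pi) ^ 3) ^ 2 * R ^ 2 := by
    intro l i j k
    rw [← n2_fr (sp_d3 (hs l) i j k), n2_sq]
    have e1 : ∀ κ : K3, ‖fr (d3 i j k (fun y => a y l)) κ‖ ^ 2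
        = ((2 * Real.pi) ^ 3) ^ 2 * (((κ i : ℝ) ^ 2 * ((κ j : ℝ) ^ 2 * (κ k : ℝ) ^ 2))
          * ‖fr (fun y => a y l) κ‖ ^ 2) := by
      intro κ
      have e2 : fr (d3 i j k (fun y => a y l)) κ
          = (2 * Real.pi * Complex.I * (κ i : ℂ)) * ((2 * Real.pi * Complex.I * (κ j : ℂ))
            * ((2 * Real.pi * Complex.I * (κ k : ℂ)) * fr (fun y => a y l) κ)) := by
        unfold d3
        rw [fr_pd (((hs l).pd k).pd j), D, fr_pd ((hs l).pd k), D, fr_pd (hs l), D]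
      have e3 : ∀ n : ℤ, ‖2 * (Real.pi : ℂ) * Complex.I * (n : ℂ)‖ ^ 2
          = (2 * Real.pi) ^ 2 * (n : ℝ) ^ 2 := by
        intro n
        rw [norm_mul, norm_mul, norm_mul, Complex.norm_I, mul_one, Complex.norm_real,
          Real.norm_eq_abs, abs_of_pos hpi, Complex.norm_ofNat, Complex.norm_intCast, mul_pow,
          sq_abs]
      have e4 : ∀ z1 z2 z3 w : ℂ, ‖z1 * (z2 * (z3 * w))‖ ^ 2
          = ‖z1‖ ^ 2 * (‖z2‖ ^ 2 * (‖z3‖ ^ 2 * ‖w‖ ^ 2)) := by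
        intro z1 z2 z3 w
        rw [norm_mul, norm_mul, norm_mul]
        ring
      rw [e2, e4, e3, e3, e3]
      ring
    simp_rw [e1]
    refine (summable_sq (rap_fr (sp_d3 (hs l) i j k)).summable |>.congr e1).tsum_le_of_sum_le
      fun F => ?_
    rw [← Finset.mul_sum]
    refine mul_le_mul_of_nonneg_left ?_ (by positivity)
    refine le_trans ?_ (h.bound F)
    refine Finset.sum_le_sum fun κ _ => ?_
    have h1 : ‖fr (fun y => a y l) κ‖ ^ 2 ≤ ∑ i, ‖fr (fun y => a y i) κ‖ ^ 2 :=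
      Finset.single_le_sum (f := fun i => ‖fr (fun y => a y i) κ‖ ^ 2) (fun _ _ => sq_nonneg _)
        (Finset.mem_univ l)
    have h2 : ∀ j, (κ j : ℝ) ^ 2 ≤ wt κ := fun j => by
      have : (κ j : ℝ) ^ 2 ≤ ∑ j, (κ j : ℝ) ^ 2 :=
        Finset.single_le_sum (f := fun j => (κ j : ℝ) ^ 2) (fun _ _ => sq_nonneg _)
          (Finset.mem_univ j)
      unfold wt
      linarith
    have h0 := wt_pos κ
    have h3 : (κ i : ℝ) ^ 2 * ((κ j : ℝ) ^ 2 * (κ k : ℝ) ^ 2) ≤ wt κ ^ m := by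
      calc _ ≤ wt κ * (wt κ * wt κ) := by
            gcongr
            · exact h2 i
            · exact h2 j
            · exact h2 k
        _ = wt κ ^ 3 := by ring
        _ ≤ wt κ ^ m := pow_le_pow_right₀ (one_le_wt κ) hm
    exact mul_le_mul h3 h1 (sq_nonneg _) (by positivity)
  unfold dsq
  calc _ ≤ ∑ _ : Fin 3, ∑ _ : Fin 3, ∑ _ : Fin 3, ∑ _ : Fin 3, ((2 * Real.pi) ^ 3) ^ 2 * R ^ 2 :=
        Finset.sum_le_sum fun l _ => Finset.sum_le_sum fun i _ => Finset.sum_le_sum fun j _ =>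
          Finset.sum_le_sum fun k _ => key l i j k
    _ = _ := by
        simp
        ring

end Pool.Agent.L5helper80.AP
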