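import Pool.Agent.L5helper80.AP.Evo

/-!
A posteriori bound for the third derivatives of a smooth solution near a trial field.
-/

open MeasureTheory Set Filter Topology
open scoped ContDiff

namespace Pool.Agent.L5helper80.AP

open H459R3.NS H459R3.EU Pool.Agent.TH340.PS

theorem prim {g : ℝ → ℝ} {T : ℝ} (hg : ContinuousOn g (Ico 0 T)) :
    (∀ t ∈ Ioo 0 T, HasDerivAt (fun t => ∫ s in (0 : ℝ)..t, g s) (g t) t) ∧
      ContinuousOn (fun t => ∫ s in (0 : ℝ)..t, g s) (Ico 0 T) := by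
  constructor
  · intro t ht
    have hi : IntervalIntegrable g volume 0 t := by
      refine (hg.mono fun s hs => ?_).intervalIntegrable
      rw [uIcc_of_le ht.1.le] at hs
      exact ⟨hs.1, hs.2.trans_lt ht.2⟩
    have hm : StronglyMeasurableAtFilter g (𝓝 t) :=
      (hg.mono Ioo_subset_Ico_self).stronglyMeasurableAtFilter isOpen_Ioo t ht
    exact intervalIntegral.integral_hasDerivAt_right hi hm
      ((hg.mono Ioo_subset_Ico_self).continuousAt (Ioo_mem_nhds ht.1 ht.2))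
  · intro t ht
    obtain ⟨b, hb1, hb2⟩ := exists_between ht.2
    have h0b : (0 : ℝ) ≤ b := ht.1.trans hb1.le
    have hi : IntegrableOn g (uIcc 0 b) := by
      rw [uIcc_of_le h0b]
      exact (hg.mono fun s hs => ⟨hs.1, hs.2.trans_lt hb2⟩).integrableOn_compact isCompact_Icc
    have h1 := intervalIntegral.continuousOn_primitive_interval hi
    rw [uIcc_of_le h0b] at h1
    refine (h1 t ⟨ht.1, hb1.le⟩).mono_of_mem_nhdsWithin ?_
    have h2 : ∀ᶠ s in 𝓝[Ico 0 T] t, s < b := nhdsWithin_le_nhds (Iio_mem_nhds hb1)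
    filter_upwards [h2, self_mem_nhdsWithin] with s hs1 hs2
    exact ⟨hs2.1, hs1.le⟩

variable {ν T : ℝ} {u : ℝ → V → V} {p : ℝ → V → ℝ} {v : ℝ → V → V} {q : ℝ → V → ℝ}

/-- The hypotheses on the trial field: the strain is at most `β`, the residual and the viscous
term are bounded by `φ`. -/
structure Bds (ν T : ℝ) (β φ : ℝ → ℝ) (v : ℝ → V → V) (q : ℝ → V → ℝ) : Prop where
  cβ : ContinuousOn β (Ico 0 T)
  cφ : ContinuousOn φ (Ico 0 T)
  strain : ∀ t ∈ Ioo 0 T, ∀ i j x, |str (fun i y => v t y i) i j x| ≤ β t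
  res : ∀ t ∈ Ioo 0 T,
    (1 + T) * (∑ i, ∫ x in cube, resid v q t i x ^ 2) + ν / 2 * grad2 (v t) ≤ φ t

theorem grad2_nonneg (v : V → V) : 0 ≤ grad2 v :=
  Finset.sum_nonneg fun _ _ => Finset.sum_nonneg fun _ _ => integral_nonneg fun _ => sq_nonneg _

theorem Bds.β0 {β φ : ℝ → ℝ} (hb : Bds ν T β φ v q) {t : ℝ} (ht : t ∈ Ioo 0 T) : 0 ≤ β t :=
  (abs_nonneg _).trans (hb.strain t ht 0 0 0)

theorem int_nonneg' {β : ℝ → ℝ} (h : ∀ t ∈ Ioo 0 T, 0 ≤ β t) {t : ℝ} (ht : t ∈ Ico 0 T) :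
    0 ≤ ∫ s in (0 : ℝ)..t, β s := by
  rw [intervalIntegral.integral_of_le ht.1, integral_Ioc_eq_integral_Ioo]
  exact setIntegral_nonneg measurableSet_Ioo fun s hs => h s ⟨hs.1, hs.2.trans ht.2⟩

/-- the distance in `L²` -/
theorem dst_le (hν : 0 ≤ ν) (h : IsSol ν T u p) (hv : Trial T v q) {β φ : ℝ → ℝ}
    (hb : Bds ν T β φ v q) {Γ ε : ℝ} (hΓ : ∀ t ∈ Ico 0 T, ∫ s in (0 : ℝ)..t, β s ≤ Γ)
    (hε : ∀ t ∈ Ico 0 T, dst (u 0) (v 0) + ∫ s in (0 : ℝ)..t, φ s ≤ ε ^ 2) :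
    ∀ t ∈ Ico 0 T, dst (u t) (v t) ≤ ε ^ 2 * Real.exp (6 * Γ + 1) := by
  have hφ0 : ∀ t ∈ Ioo 0 T, 0 ≤ φ t := fun t ht => by
    refine le_trans ?_ (hb.res t ht)
    have h1 : 0 ≤ grad2 (v t) := grad2_nonneg _
    have h2 : 0 ≤ ∑ i, ∫ x in cube, resid v q t i x ^ 2 :=
      Finset.sum_nonneg fun _ _ => integral_nonneg fun _ => sq_nonneg _
    have h3 : 0 < T := ht.1.trans ht.2
    positivity
  -- with a positive number
  have key : ∀ δ : ℝ, 0 < δ → ∀ t ∈ Ico 0 T, dst (u t) (v t)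
      ≤ (dst (u 0) (v 0) + (∫ s in (0 : ℝ)..t, φ s) + δ * (1 + t))
        * Real.exp (6 * (∫ s in (0 : ℝ)..t, β s) + t / (1 + T)) := by
    intro δ hδ
    obtain ⟨dβ, cβ⟩ := prim hb.cβ
    obtain ⟨dφ, cφ⟩ := prim hb.cφ
    refine fence (f := fun t => dst (u t) (v t))
      (f' := fun t => ∑ i, ∫ x in cube, 2 * (u t x i - v t x i)
        * (dt (fun s y => u s y i) t x - deriv (fun s => v s x i) t))
      (B := fun t => (dst (u 0) (v 0) + (∫ s in (0 : ℝ)..t, φ s) + δ * (1 + t))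
        * Real.exp (6 * (∫ s in (0 : ℝ)..t, β s) + t / (1 + T)))
      (B' := fun t => (φ t + δ) * Real.exp (6 * (∫ s in (0 : ℝ)..t, β s) + t / (1 + T))
        + (dst (u 0) (v 0) + (∫ s in (0 : ℝ)..t, φ s) + δ * (1 + t))
          * (Real.exp (6 * (∫ s in (0 : ℝ)..t, β s) + t / (1 + T)) * (6 * β t + 1 / (1 + T))))
      (dst_continuousOn h hv) (fun t ht => dst_hasDerivAt h hv ht) ?_ ?_ ?_ ?_
    · refine ContinuousOn.mul ?_ ?_
      · exact (continuousOn_const.add cφ).add (by fun_prop)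
      · refine Real.continuous_exp.comp_continuousOn ?_
        exact (continuousOn_const.mul cβ).add (by fun_prop)
    · intro t ht
      have h1 : HasDerivAt (fun t => dst (u 0) (v 0) + (∫ s in (0 : ℝ)..t, φ s) + δ * (1 + t))
          (φ t + δ) t := by
        have h2 := ((dφ t ht).const_add (dst (u 0) (v 0))).fun_add
          (((hasDerivAt_id t).const_add 1).const_mul δ)
        simpa using h2
      have h3 : HasDerivAt (fun t => 6 * (∫ s in (0 : ℝ)..t, β s) + t / (1 + T))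
          (6 * β t + 1 / (1 + T)) t :=
        ((dβ t ht).const_mul 6).fun_add ((hasDerivAt_id t).div_const (1 + T))
      exact h1.fun_mul h3.exp
    · simp only [intervalIntegral.integral_same, mul_zero, zero_div, add_zero, Real.exp_zero,
        mul_one]
      linarith
    · intro t ht he
      have hT : 0 < T := ht.1.trans ht.2
      have hl : 0 < 1 / (1 + T) := by positivity
      have h1 := dst_deriv_le hν h hv ht (hb.strain t ht) hl
      have h2 := hb.res t ht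
      have h3 : (1 / (1 + T))⁻¹ = 1 + T := by rw [one_div, inv_inv]
      rw [h3, he] at h1
      set X := 6 * (∫ s in (0 : ℝ)..t, β s) + t / (1 + T) with hX
      have hX0 : 0 ≤ X := by
        have h4 := int_nonneg' (T := T) (fun t ht => hb.β0 ht) ⟨ht.1.le, ht.2⟩
        have h5 : 0 ≤ t / (1 + T) := div_nonneg ht.1.le (by linarith)
        linarith
      have hX1 : 1 ≤ Real.exp X := Real.one_le_exp hX0
      have h6 : 0 < φ t + δ := by linarith [hφ0 t ht]
      have h7 : φ t < (φ t + δ) * Real.exp X := by nlinarith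
      calc _ ≤ _ := h1
        _ < _ := by linarith
  intro t ht
  have hT : 0 < T := ht.1.trans_lt ht.2
  refine le_of_forall_pos_le_add fun δ hδ => ?_
  have hK : 0 < (1 + t) * Real.exp (6 * Γ + 1) := by
    have := ht.1
    positivity
  have h1 := key (δ / ((1 + t) * Real.exp (6 * Γ + 1))) (by positivity) t ht
  refine h1.trans ?_
  have h2 := hε t ht
  have h3 : 6 * (∫ s in (0 : ℝ)..t, β s) + t / (1 + T) ≤ 6 * Γ + 1 := by
    have h4 := hΓ t ht
    have h5 : t / (1 + T) ≤ 1 := by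
      rw [div_le_one (by linarith)]
      linarith [ht.2]
    linarith
  have h6 : Real.exp (6 * (∫ s in (0 : ℝ)..t, β s) + t / (1 + T)) ≤ Real.exp (6 * Γ + 1) :=
    Real.exp_le_exp.2 h3
  have h7 : 0 ≤ ε ^ 2 + δ / ((1 + t) * Real.exp (6 * Γ + 1)) * (1 + t) := by
    have := ht.1
    positivity
  calc _ ≤ (ε ^ 2 + δ / ((1 + t) * Real.exp (6 * Γ + 1)) * (1 + t))
        * Real.exp (6 * (∫ s in (0 : ℝ)..t, β s) + t / (1 + T)) :=
        mul_le_mul_of_nonneg_right (by linarith) (Real.exp_pos _).le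
    _ ≤ (ε ^ 2 + δ / ((1 + t) * Real.exp (6 * Γ + 1)) * (1 + t)) * Real.exp (6 * Γ + 1) :=
        mul_le_mul_of_nonneg_left h6 h7
    _ = _ := by
        have := ht.1
        have e1 := Real.exp_pos (6 * Γ + 1)
        field_simp

/-- the absolute constant -/
noncomputable def C0 : ℝ :=
  (Real.sqrt kap + 1) * (2 + 18 * Real.sqrt C7) ^ 10 * Real.exp (206550 * 3 + 1)

theorem C0_pos : 0 < C0 := by
  have := Real.sqrt_nonneg C7
  have := Real.sqrt_nonneg kap
  unfold C0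
  positivity

theorem small_aux1 {c P : ℝ} (hP1 : 1 ≤ P) : 2 + c * P ≤ (2 + c) * P := by nlinarith

theorem small_aux2 {a T c P : ℝ} (hT : 0 ≤ T) (hc : 0 ≤ c) (hP1 : 1 ≤ P)
    (ha : a = (1 + T) * (2 + c * P)) :
    a ^ 10 ≤ (1 + T) ^ 10 * ((2 + c) ^ 10 * P ^ 10) := by
  have hP0 : 0 ≤ P := by linarith
  rw [ha, mul_pow]
  refine mul_le_mul_of_nonneg_left ?_ (by positivity)
  rw [← mul_pow]
  exact pow_le_pow_left₀ (by positivity) (small_aux1 hP1) 10

theorem small_aux3 {R P Γ : ℝ} (hP : P = (1 + R) * Real.exp (20655 * (Γ + 3))) :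
    P ^ 10 = (1 + R) ^ 10 * Real.exp (206550 * (Γ + 3)) := by
  have e : ((10 : ℕ) : ℝ) * (20655 * (Γ + 3)) = 206550 * (Γ + 3) := by
    push_cast
    ring
  rw [hP, mul_pow, ← Real.exp_nat_mul, e]

theorem small_aux4 (Γ : ℝ) : Real.exp (3 * Γ + 1) * Real.exp (206550 * (Γ + 3))
      = Real.exp (206553 * Γ) * Real.exp (206550 * 3 + 1) := by
  have e : 3 * Γ + 1 + 206550 * (Γ + 3) = 206553 * Γ + (206550 * 3 + 1) := by ring
  rw [← Real.exp_add, ← Real.exp_add, e]

theorem small_aux5 {k ε w1 w2 w3 w4 Y X Z t : ℝ} (h : w3 * w4 = w2 * w1) :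
    (k + 1) * (ε * w3) * (Y * (X * (Z * w4))) * t = (k + 1) * X * w1 * (ε * (Y * t) * Z * w2) := by
  linear_combination ((k + 1) * ε * Y * t * X * Z) * h

theorem small_aux {R ε T Γ a P k c : ℝ} (hε0 : 0 ≤ ε) (hT : 0 ≤ T)
    (hk : 0 ≤ k) (hc : 0 ≤ c) (hP1 : 1 ≤ P)
    (hP : P = (1 + R) * Real.exp (20655 * (Γ + 3))) (ha : a = (1 + T) * (2 + c * P)) :
    k * (ε * Real.exp (3 * Γ + 1)) * a ^ 10 * (1 + T)
      ≤ (k + 1) * (2 + c) ^ 10 * Real.exp (206550 * 3 + 1)
      * (ε * (1 + T) ^ 11 * (1 + R) ^ 10 * Real.exp (206553 * Γ)) := by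
  have e1 := small_aux2 hT hc hP1 ha
  have e2 := small_aux3 hP
  have hP0 : 0 ≤ P := zero_le_one.trans hP1
  have e4 : 0 ≤ ε * Real.exp (3 * Γ + 1) := by positivity
  have ha0 : 0 ≤ a := by rw [ha]; positivity
  have e5 : k * (ε * Real.exp (3 * Γ + 1)) * a ^ 10
      ≤ (k + 1) * (ε * Real.exp (3 * Γ + 1)) * ((1 + T) ^ 10 * ((2 + c) ^ 10 * P ^ 10)) := by
    refine mul_le_mul ?_ e1 (by positivity) (by positivity)
    exact mul_le_mul_of_nonneg_right (le_add_of_nonneg_right zero_le_one) e4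
  have e6 : 0 ≤ 1 + T := by positivity
  refine (mul_le_mul_of_nonneg_right e5 e6).trans (le_of_eq ?_)
  rw [e2, pow_succ (1 + T) 10]
  exact small_aux5 (small_aux4 Γ)

theorem small_sqrt {R ε T Γ a P E : ℝ} (hε0 : 0 ≤ ε) (hT : 0 ≤ T)
    (hP1 : 1 ≤ P) (hP : P = (1 + R) * Real.exp (20655 * (Γ + 3)))
    (ha : a = (1 + T) * (2 + 18 * Real.sqrt C7 * P)) (ha0 : 0 < a)
    (hE : E ≤ ε ^ 2 * Real.exp (6 * Γ + 1))
    (hC : C0 * (ε * (1 + T) ^ 11 * (1 + R) ^ 10 * Real.exp (206553 * Γ)) ≤ 1) :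
    Real.sqrt (kap * E / (a ^ 20)⁻¹) ≤ 1 / (1 + T) := by
  have hka := kap_nonneg
  have hC7 := Real.sqrt_nonneg C7
  refine Real.sqrt_le_iff.2 ⟨by positivity, ?_⟩
  have hsk := Real.sqrt_nonneg kap
  have hsm := (small_aux hε0 hT hsk (by positivity : 0 ≤ 18 * Real.sqrt C7) hP1 hP ha).trans hC
  clear hC
  have hsm0 : 0 ≤ Real.sqrt kap * (ε * Real.exp (3 * Γ + 1)) * a ^ 10 * (1 + T) := by
    positivity
  have hsq : kap * (ε ^ 2 * Real.exp (6 * Γ + 2)) * a ^ 20 * (1 + T) ^ 2 ≤ 1 := by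
    have e4 : kap * (ε ^ 2 * Real.exp (6 * Γ + 2)) * a ^ 20 * (1 + T) ^ 2
        = (Real.sqrt kap * (ε * Real.exp (3 * Γ + 1)) * a ^ 10 * (1 + T)) ^ 2 := by
      have e5 : Real.exp (6 * Γ + 2) = Real.exp (3 * Γ + 1) ^ 2 := by
        have e : ((2 : ℕ) : ℝ) * (3 * Γ + 1) = 6 * Γ + 2 := by
          push_cast
          ring
        rw [← Real.exp_nat_mul, e]
      have e6 := Real.sq_sqrt hka
      rw [e5]
      nth_rewrite 1 [← e6]
      ring
    rw [e4]
    exact pow_le_one₀ hsm0 hsm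
  have hE' : E ≤ ε ^ 2 * Real.exp (6 * Γ + 2) :=
    hE.trans (mul_le_mul_of_nonneg_left (Real.exp_le_exp.2 (by linarith)) (sq_nonneg _))
  rw [div_inv_eq_mul, div_pow, one_pow, le_div_iff₀ (by positivity)]
  calc kap * E * a ^ 20 * (1 + T) ^ 2
      ≤ kap * (ε ^ 2 * Real.exp (6 * Γ + 2)) * a ^ 20 * (1 + T) ^ 2 := by gcongr
    _ ≤ 1 := hsq

/-- the main estimate -/
theorem core (hν : 0 ≤ ν) (h : IsSol ν T u p) (hv : Trial T v q) {β φ : ℝ → ℝ}
    (hb : Bds ν T β φ v q) {Γ ε R : ℝ} (hR : 0 ≤ R) (hε0 : 0 ≤ ε)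
    (hΓ : ∀ t ∈ Ico 0 T, ∫ s in (0 : ℝ)..t, β s ≤ Γ)
    (hε : ∀ t ∈ Ico 0 T, dst (u 0) (v 0) + ∫ s in (0 : ℝ)..t, φ s ≤ ε ^ 2)
    (h0 : dsq (u 0) ≤ R ^ 2)
    (hC : C0 * (ε * (1 + T) ^ 11 * (1 + R) ^ 10 * Real.exp (206553 * Γ)) ≤ 1) :
    ∀ t ∈ Ico 0 T, dsq (u t) ≤ (1 + R) ^ 2 * Real.exp (41310 * (Γ + 3)) := by
  have hsmall : ∀ a P E : ℝ, 0 ≤ T → 1 ≤ P → P = (1 + R) * Real.exp (20655 * (Γ + 3)) →
      a = (1 + T) * (2 + 18 * Real.sqrt C7 * P) → 0 < a → E ≤ ε ^ 2 * Real.exp (6 * Γ + 1) →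
      Real.sqrt (kap * E / (a ^ 20)⁻¹) ≤ 1 / (1 + T) :=
    fun a P E h1 h2 h3 h4 h5 h6 => small_sqrt hε0 h1 h2 h3 h4 h5 h6 hC
  clear hC
  have hd := dst_le hν h hv hb hΓ hε
  set P : ℝ := (1 + R) * Real.exp (20655 * (Γ + 3)) with hP
  have hP2 : P ^ 2 = (1 + R) ^ 2 * Real.exp (41310 * (Γ + 3)) := by
    have e : ((2 : ℕ) : ℝ) * (20655 * (Γ + 3)) = 41310 * (Γ + 3) := by
      push_cast
      ring
    rw [hP, mul_pow, ← Real.exp_nat_mul, e]
  obtain ⟨dβ, cβ⟩ := prim hb.cβ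
  have key : ∀ t ∈ Ico 0 T, dsq (u t)
      ≤ (1 + R) ^ 2 * Real.exp (41310 * ((∫ s in (0 : ℝ)..t, β s) + 3 * t / (1 + T))) := by
    refine fence (f := fun t => dsq (u t)) (f' := fun t => -(2 * ν * fourth (fun i y => u t y i))
        - 2 * Q3 (cv (fun i y => u t y i) (fun i y => u t y i)) (fun i y => u t y i))
      (B := fun t => (1 + R) ^ 2
        * Real.exp (41310 * ((∫ s in (0 : ℝ)..t, β s) + 3 * t / (1 + T))))
      (B' := fun t => (1 + R) ^ 2
        * (Real.exp (41310 * ((∫ s in (0 : ℝ)..t, β s) + 3 * t / (1 + T)))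
          * (41310 * (β t + 3 / (1 + T)))))
      (dsq_continuousOn h) (fun t ht => dsq_hasDerivAt h ht) ?_ ?_ ?_ ?_
    · refine continuousOn_const.mul (Real.continuous_exp.comp_continuousOn ?_)
      exact continuousOn_const.mul (cβ.add (by fun_prop))
    · intro t ht
      have h3 : HasDerivAt (fun t => 41310 * ((∫ s in (0 : ℝ)..t, β s) + 3 * t / (1 + T)))
          (41310 * (β t + 3 / (1 + T))) t := by
        have h4 := ((dβ t ht).fun_add
          (((hasDerivAt_id t).const_mul 3).div_const (1 + T))).const_mul 41310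
        simpa using h4
      exact h3.exp.const_mul _
    · simp only [intervalIntegral.integral_same, mul_zero, zero_div, add_zero, Real.exp_zero,
        mul_one]
      nlinarith
    · intro t ht he
      have hI : t ∈ Ico 0 T := ⟨ht.1.le, ht.2⟩
      have hT : 0 < T := ht.1.trans ht.2
      have hB0 : 0 < dsq (u t) := by
        rw [he]; positivity
      -- the norm at this time
      have hDP : dsq (u t) ≤ P ^ 2 := by
        rw [he, hP2]
        refine mul_le_mul_of_nonneg_left (Real.exp_le_exp.2 ?_) (by positivity)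
        have h4 := hΓ t hI
        have h5 : 3 * t / (1 + T) ≤ 3 := by
          rw [div_le_iff₀ (by linarith)]
          linarith [ht.2]
        linarith
      have hP1 : 1 ≤ P := by
        have hΓ0 : 0 ≤ Γ := (int_nonneg' (fun t ht => hb.β0 ht) hI).trans (hΓ t hI)
        have : 1 ≤ Real.exp (20655 * (Γ + 3)) := Real.one_le_exp (by positivity)
        rw [hP]
        nlinarith
      have hX : Real.sqrt (dsq (u t)) ≤ P := Real.sqrt_le_iff.2 ⟨by linarith, hDP⟩
      -- the scale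
      have hC7 := Real.sqrt_nonneg C7
      set a : ℝ := (1 + T) * (2 + 18 * Real.sqrt C7 * P) with ha
      have ha2 : 2 ≤ a := by
        have : 0 ≤ 18 * Real.sqrt C7 * P := by positivity
        rw [ha]
        nlinarith
      have ha0 : 0 < a := by linarith
      set r : ℝ := (a ^ 4)⁻¹ with hr
      have hr0 : 0 < r := by positivity
      have hr2 : r ≤ 1 / 2 := by
        rw [hr, inv_le_comm₀ (by positivity) (by norm_num)]
        have : (2 : ℝ) ^ 4 ≤ a ^ 4 := pow_le_pow_left₀ (by norm_num) ha2 4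
        norm_num at this ⊢
        linarith
      have hr4 : r ^ (1 / 4 : ℝ) = a⁻¹ := by
        rw [hr, Real.inv_rpow (by positivity), ← Real.rpow_natCast, ← Real.rpow_mul ha0.le]
        norm_num
      have hr5 : r ^ 5 = (a ^ 20)⁻¹ := by
        rw [hr, inv_pow, ← pow_mul]
      have t1 : 18 * Real.sqrt C7 * (r ^ (1 / 4 : ℝ) * Real.sqrt (dsq (u t))) ≤ 1 / (1 + T) := by
        rw [hr4]
        calc 18 * Real.sqrt C7 * (a⁻¹ * Real.sqrt (dsq (u t)))
            ≤ 18 * Real.sqrt C7 * (a⁻¹ * P) := by gcongr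
          _ = (18 * Real.sqrt C7 * P) / a := by ring
          _ ≤ 1 / (1 + T) := by
            rw [div_le_div_iff₀ ha0 (by linarith), ha]
            nlinarith
      have hka := kap_nonneg
      have t2 : Real.sqrt (kap * dst (u t) (v t) / r ^ 5) ≤ 1 / (1 + T) := by
        rw [hr5]
        exact hsmall a P _ hT.le hP1 hP ha ha0 (hd t hI)
      -- the strain
      have hs : ∀ i j x, |str (fun i y => u t y i) i j x| ≤ β t + 2 / (1 + T) := by
        intro i j x
        refine (strain_le (fun i => h.sp hI i) (fun i => hv.cp ht i) (hb.strain t ht) hr0 hr2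
          i j x).trans ?_
        have : 2 / (1 + T) = 1 / (1 + T) + 1 / (1 + T) := by ring
        linarith
      have hBS : BS (fun i y => u t y i) (β t + 2 / (1 + T)) (Real.sqrt (dsq (u t))) :=
        ⟨fun i => h.sp hI i, hs, fun l i j k => nrm_le_third (u t) l i j k⟩
      have k3 := Q3_le hBS (h.divfree t hI)
      have k4 := (abs_le.1 k3).1
      rw [Real.sq_sqrt hB0.le] at k4
      have f0 : 0 ≤ 2 * ν * fourth (fun i y => u t y i) :=
        mul_nonneg (by positivity) (fourth_nonneg _)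
      have hfin : (1 + R) ^ 2
          * (Real.exp (41310 * ((∫ s in (0 : ℝ)..t, β s) + 3 * t / (1 + T)))
            * (41310 * (β t + 3 / (1 + T)))) = dsq (u t) * (41310 * (β t + 3 / (1 + T))) := by
        rw [he]; ring
      rw [hfin]
      have hlt : (β t + 2 / (1 + T)) * dsq (u t) < (β t + 3 / (1 + T)) * dsq (u t) := by
        refine mul_lt_mul_of_pos_right ?_ hB0
        have : 2 / (1 + T) < 3 / (1 + T) :=
          div_lt_div_of_pos_right (by norm_num) (by linarith)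
        linarith
      linarith
  intro t ht
  refine (key t ht).trans (mul_le_mul_of_nonneg_left (Real.exp_le_exp.2 ?_) (by positivity))
  have hT : 0 < T := ht.1.trans_lt ht.2
  have h4 := hΓ t ht
  have h5 : 3 * t / (1 + T) ≤ 3 := by
    rw [div_le_iff₀ (by linarith)]
    linarith [ht.2]
  linarith

end Pool.Agent.L5helper80.AP
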