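import Pool.Agent.TH340.PS.EU

/-!
Averages over small balls of the derivatives of a `C¹` periodic function, in terms of the `L²` norm
of the function.
-/

open MeasureTheory Set Filter Topology
open scoped ContDiff

namespace Pool.Agent.L5helper80.AP

open H459R3.NS H459R3.EU Pool.Agent.TH340.PS

/-- the integral over a translated period cell -/
theorem integral_cell {h : V → ℝ} (hp : Per h) (a : V) :
    ∫ x in {x : V | ∀ i, x i ∈ Ioc (a i) (a i + 1)}, h x = ∫ x in cube, h x := by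
  set F : UnitAddTorus (Fin 3) → ℝ := fun t => h (Function.surjInv cov_surj t) with hF
  have hc : ∀ x, F (cov x) = h x := fun x =>
    hp.eq_of_cov (Function.surjInv_eq cov_surj (cov x))
  have h1 := UnitAddTorus.integral_preimage F a
  have h2 := integral_torus F
  simp_rw [hc] at h2
  rw [← h2, h1]
  congr 1
  funext x
  exact (hc x).symm

/-- the centred cell -/
def Q0 : Set V := {y : V | ∀ i, y i ∈ Ioc (-(1 / 2) : ℝ) (1 / 2)}

theorem measurableSet_Q0 : MeasurableSet Q0 := by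
  have : Q0 = Set.pi univ (fun _ : Fin 3 => Ioc (-(1 / 2) : ℝ) (1 / 2)) := by
    ext y; simp [Q0]
  rw [this]
  exact MeasurableSet.univ_pi fun _ => measurableSet_Ioc

theorem integral_Q0 {h : V → ℝ} (hp : Per h) (x : V) :
    ∫ y in Q0, h (x + y) = ∫ y in cube, h y := by
  have h1 : Per (fun y => h (x + y)) := fun i y => by
    have := hp i (x + y)
    rw [add_assoc] at this
    exact this
  have h2 := integral_cell h1 (fun _ => -(1 / 2))
  have e : {x : V | ∀ i, x i ∈ Ioc ((fun _ : Fin 3 => (-(1 / 2) : ℝ)) i)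
      ((fun _ : Fin 3 => (-(1 / 2) : ℝ)) i + 1)} = Q0 := by
    ext y
    simp only [Q0, mem_ofPred_eq]
    norm_num
  rw [e] at h2
  rw [h2]
  -- the integral over the cube of a translate
  have h3 := integral_cell hp x
  have h4 : ∫ y in {y : V | ∀ i, y i ∈ Ioc ((0 : V) i) ((0 : V) i + 1)}, h (x + y)
      = ∫ z in {z : V | ∀ i, z i ∈ Ioc (x i) (x i + 1)}, h z := by
    have mp := (measurePreserving_add_left (volume : Measure V) x)
    have me : MeasurableEmbedding (fun y : V => x + y) := measurableEmbedding_addLeft x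
    rw [← mp.setIntegral_preimage_emb me h {z : V | ∀ i, z i ∈ Ioc (x i) (x i + 1)}]
    congr 2
    ext y
    simp only [mem_preimage, mem_ofPred_eq, Pi.add_apply, Pi.zero_apply, mem_Ioc, zero_add]
    refine forall_congr' fun i => ?_
    constructor
    · rintro ⟨a, b⟩; exact ⟨by linarith, by linarith⟩
    · rintro ⟨a, b⟩; exact ⟨by linarith, by linarith⟩
  rw [← h3, ← h4, Measure.restrict_congr_set cell_ae]

theorem rho_smul (r : ℝ) (y : V) : rho (r • y) = r ^ 2 * rho y := by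
  unfold rho
  rw [Finset.mul_sum]
  exact Finset.sum_congr rfl fun i _ => by simp [mul_pow]

theorem bmp_smul (n : ℕ) (r : ℝ) (y : V) : bmp n r (r • y) = r ^ (2 * n) * bmp n 1 y := by
  unfold bmp
  rw [rho_smul, pow_mul, ← mul_pow, mul_max_of_nonneg _ _ (sq_nonneg r)]
  congr 2
  · ring
  · ring

theorem finrank_V : Module.finrank ℝ V = 3 := by simp

theorem scale {f : V → ℝ} {r : ℝ} (hr : 0 < r) :
    ∫ y, f y = r ^ 3 * ∫ y, f (r • y) := by
  have h := Measure.integral_comp_smul (volume : Measure V) f r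
  rw [finrank_V, abs_of_pos (by positivity), smul_eq_mul] at h
  rw [h]
  field_simp

theorem int_bmp3 {r : ℝ} (hr : 0 < r) : ∫ y, bmp 3 r y = r ^ 9 * ∫ y, bmp 3 1 y := by
  rw [scale (f := bmp 3 r) hr]
  simp_rw [bmp_smul]
  rw [integral_const_mul]
  ring

/-- the constant of the weight -/
noncomputable def MM : ℝ := ∫ y, bmp 4 1 y * rho y

theorem MM_nonneg : 0 ≤ MM :=
  integral_nonneg fun y => mul_nonneg (bmp_nonneg _ _ _) (rho_nonneg y)

theorem int_bmp4 {r : ℝ} (hr : 0 < r) : ∫ y, bmp 4 r y * rho y = r ^ 13 * MM := by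
  rw [scale (f := fun y => bmp 4 r y * rho y) hr]
  simp_rw [bmp_smul, rho_smul]
  have : ∀ y : V, r ^ (2 * 4) * bmp 4 1 y * (r ^ 2 * rho y) = r ^ 10 * (bmp 4 1 y * rho y) :=
    fun y => by ring
  simp_rw [this]
  rw [integral_const_mul, MM]
  ring

theorem supp_Q0 {r : ℝ} (hr : 0 < r) (hr2 : r ≤ 1 / 2) {y : V} (hy : y ∉ Q0) (n : ℕ) :
    bmp (n + 1) r y = 0 := by
  apply bmp_zero
  by_contra h
  push Not at h
  apply hy
  intro i
  have h1 : y i ^ 2 < r ^ 2 := (sq_le_rho y i).trans_lt h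
  have h2 : |y i| < r := by
    have := sq_lt_sq.1 h1
    rwa [abs_of_pos hr] at this
  have h3 := abs_lt.1 h2
  exact ⟨by linarith [h3.1], by linarith [h3.2]⟩

/-- the constant `κ` -/
noncomputable def kap : ℝ := 36 * MM / (∫ y, bmp 3 1 y) ^ 2

theorem kap_nonneg : 0 ≤ kap := by
  have := MM_nonneg
  unfold kap
  positivity

/-- averages of derivatives -/
theorem mean_sq_le {f : V → ℝ} (hf : ContDiff ℝ 1 f) (hp : Per f) {r : ℝ} (hr : 0 < r)
    (hr2 : r ≤ 1 / 2) (x : V) (j : Fin 3) :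
    mv r (pd j f) x ^ 2 ≤ kap * (∫ y in cube, f y ^ 2) / r ^ 5 := by
  have hN1 := int_bmp3_pos (r := 1) one_pos
  have hN := int_bmp3 hr
  have hsh : ContDiff ℝ 1 (fun y => f (x + y)) := hf.comp (contDiff_const.add contDiff_id)
  have h1 : ∫ y, bmp 3 r y * pd j f (x + y) = 6 * ∫ y, bmp 2 r y * (y j * f (x + y)) := by
    have h := ibp_bmp 1 r hsh j
    have e : ∀ y, pd j (fun y => f (x + y)) y = pd j f (x + y) := fun y => pd_shift f x j y
    simp_rw [e] at h
    norm_num at h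
    exact h
  -- restriction to the cell
  have h2 : ∫ y, bmp 2 r y * (y j * f (x + y)) = ∫ y in Q0, (bmp 2 r y * y j) * f (x + y) := by
    rw [← integral_indicator measurableSet_Q0]
    congr 1
    funext y
    by_cases hy : y ∈ Q0
    · rw [indicator_of_mem hy]; ring
    · rw [indicator_of_notMem hy, supp_Q0 hr hr2 hy 1, zero_mul]
  have hQfin : volume Q0 < ⊤ := by
    have hsub : Q0 ⊆ Icc (fun _ => -(1 / 2)) (fun _ => 1 / 2) := fun y hy =>
      ⟨fun i => (hy i).1.le, fun i => (hy i).2⟩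
    exact (measure_mono hsub).trans_lt isCompact_Icc.measure_lt_top
  have hQK : Q0 ⊆ Icc (fun _ => -(1 / 2)) (fun _ => 1 / 2) := fun y hy =>
    ⟨fun i => (hy i).1.le, fun i => (hy i).2⟩
  have hint : ∀ g : V → ℝ, Continuous g → IntegrableOn g Q0 := fun g hg =>
    (hg.continuousOn.integrableOn_compact isCompact_Icc).mono_set hQK
  have ca : Continuous (fun y : V => bmp 2 r y * y j) := (bmp_cont 2 r).mul (continuous_apply j)
  have cb : Continuous (fun y : V => f (x + y)) := hsh.continuous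
  have h3 : (∫ y in Q0, (bmp 2 r y * y j) * f (x + y)) ^ 2
      ≤ (∫ y in Q0, (bmp 2 r y * y j) ^ 2) * ∫ y in Q0, f (x + y) ^ 2 :=
    integral_mul_sq_le (hint _ (ca.pow 2)) (hint _ (cb.pow 2)) (hint _ (ca.mul cb))
  have h4 : ∫ y in Q0, f (x + y) ^ 2 = ∫ y in cube, f y ^ 2 :=
    integral_Q0 (h := fun y => f y ^ 2) (fun i y => by simp only [hp i y]) x
  have h5 : ∫ y in Q0, (bmp 2 r y * y j) ^ 2 ≤ r ^ 13 * MM := by
    rw [← int_bmp4 hr]
    have i4 : Integrable (fun y => bmp 4 r y * rho y) := int_bmp 3 r rho_cont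
    have hle : ∀ y : V, (bmp 2 r y * y j) ^ 2 ≤ bmp 4 r y * rho y := fun y => by
      have e : (bmp 2 r y * y j) ^ 2 = bmp 4 r y * y j ^ 2 := by
        unfold bmp; ring
      rw [e]
      exact mul_le_mul_of_nonneg_left (sq_le_rho y j) (bmp_nonneg _ _ _)
    exact (setIntegral_mono (f := fun y => (bmp 2 r y * y j) ^ 2) (hint _ (ca.pow 2))
      i4.integrableOn hle).trans (setIntegral_le_integral i4 (Eventually.of_forall fun y =>
        mul_nonneg (bmp_nonneg _ _ _) (rho_nonneg y)))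
  rw [h4] at h3
  have hE : 0 ≤ ∫ y in cube, f y ^ 2 := integral_nonneg fun y => sq_nonneg _
  have h6 : (∫ y in Q0, (bmp 2 r y * y j) * f (x + y)) ^ 2
      ≤ r ^ 13 * MM * ∫ y in cube, f y ^ 2 :=
    h3.trans (mul_le_mul_of_nonneg_right h5 hE)
  unfold mv
  rw [h1, h2, hN]
  set I := ∫ y in Q0, (bmp 2 r y * y j) * f (x + y) with hI
  set E := ∫ y in cube, f y ^ 2 with hEE
  set N := ∫ y, bmp 3 1 y with hNN
  have e : ((r ^ 9 * N)⁻¹ * (6 * I)) ^ 2 = 36 / (r ^ 18 * N ^ 2) * I ^ 2 := by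
    field_simp
    ring
  rw [e]
  calc 36 / (r ^ 18 * N ^ 2) * I ^ 2 ≤ 36 / (r ^ 18 * N ^ 2) * (r ^ 13 * MM * E) :=
        mul_le_mul_of_nonneg_left h6 (by positivity)
    _ = kap * E / r ^ 5 := by
        unfold kap
        rw [← hNN]
        field_simp

end Pool.Agent.L5helper80.AP
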