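import Pool.Agent.L5helper80.AP.Main
import Pool.Agent.L5helper80.AP.Four

/-!
Classical solutions for all data in a ball of `H^m` imply bounds for smooth solutions which depend
only on the ball.
-/

open MeasureTheory Set Filter Topology
open scoped ContDiff

namespace Pool.Agent.L5helper80.AP

open H459R3.NS H459R3.EU Pool.Agent.TH340.PS

section

variable {T T₁ ν G : ℝ} {v : ℝ → V → V} {q : ℝ → V → ℝ}

theorem pd_slice1 {f : ℝ → V → ℝ}
    (hf : ContDiffOn ℝ 1 (fun z : ℝ × V => f z.1 z.2) (Ico 0 T ×ˢ univ)) {t : ℝ}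
    (ht : t ∈ Ico 0 T) (j : Fin 3) (x : V) :
    pd j (f t) x = fderivWithin ℝ (fun z : ℝ × V => f z.1 z.2) (Ico 0 T ×ˢ univ) (t, x)
      (0, Pi.single j 1) := by
  have h1 : HasFDerivWithinAt (fun z : ℝ × V => f z.1 z.2)
      (fderivWithin ℝ (fun z : ℝ × V => f z.1 z.2) (Ico 0 T ×ˢ univ) (t, x))
      (Ico 0 T ×ˢ univ) (t, x) :=
    ((hf.differentiableOn one_ne_zero) (t, x) ⟨ht, mem_univ _⟩).hasFDerivWithinAt
  have h2 : HasFDerivAt (fun y : V => ((t, y) : ℝ × V)) (ContinuousLinearMap.inr ℝ ℝ V) x :=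
    hasFDerivAt_prodMk_right t x
  have h3 : HasFDerivWithinAt (fun y : V => f t y)
      ((fderivWithin ℝ (fun z : ℝ × V => f z.1 z.2) (Ico 0 T ×ˢ univ) (t, x)).comp
        (ContinuousLinearMap.inr ℝ ℝ V)) univ x :=
    HasFDerivWithinAt.comp (g := fun z : ℝ × V => f z.1 z.2) (t := Ico 0 T ×ˢ univ) x h1
      h2.hasFDerivWithinAt (fun y _ => ⟨ht, mem_univ _⟩)
  rw [hasFDerivWithinAt_univ] at h3
  unfold pd
  have h4 : fderiv ℝ (f t) x = _ := h3.fderiv
  rw [h4]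
  simp

theorem exists_cube (x : V) : ∃ m : K3, (x + fun i => (m i : ℝ)) ∈ cube := by
  refine ⟨fun i => -⌊x i⌋, ?_, ?_⟩
  · intro i
    simp only [Pi.zero_apply, Pi.add_apply, Int.cast_neg]
    have := Int.floor_le (x i)
    linarith
  · intro i
    simp only [Pi.one_apply, Pi.add_apply, Int.cast_neg]
    have := Int.lt_floor_add_one (x i)
    linarith

theorem grad_bound (hv : Classical T₁ v q) (hT : T < T₁) :
    ∃ G : ℝ, 0 ≤ G ∧ ∀ t ∈ Icc 0 T, ∀ x i j, |pd j (fun y => v t y i) x| ≤ G := by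
  have hsub : Icc 0 T ×ˢ cube ⊆ Ico 0 T₁ ×ˢ (univ : Set V) :=
    prod_mono (fun s hs => ⟨hs.1, hs.2.trans_lt hT⟩) (subset_univ _)
  have hK : IsCompact (Icc 0 T ×ˢ cube) := isCompact_Icc.prod isCompact_Icc
  have h1 : ∀ i j : Fin 3, ∃ C : ℝ, ∀ z ∈ Icc 0 T ×ˢ cube,
      ‖fderivWithin ℝ (fun z : ℝ × V => v z.1 z.2 i) (Ico 0 T₁ ×ˢ univ) z (0, Pi.single j 1)‖
        ≤ C := by
    intro i j
    have hc : ContDiffOn ℝ 1 (fun z : ℝ × V => v z.1 z.2 i) (Ico 0 T₁ ×ˢ univ) :=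
      (contDiffOn_pi.1 hv.c1) i
    have h2 : ContinuousOn (fderivWithin ℝ (fun z : ℝ × V => v z.1 z.2 i)
        (Ico 0 T₁ ×ˢ univ)) (Ico 0 T₁ ×ˢ univ) :=
      hc.continuousOn_fderivWithin (uniqueDiff T₁) le_rfl
    exact hK.exists_bound_of_continuousOn ((h2.clm_apply continuousOn_const).mono hsub)
  choose C hC using h1
  refine ⟨∑ i, ∑ j, |C i j|, Finset.sum_nonneg fun _ _ => Finset.sum_nonneg fun _ _ =>
    abs_nonneg _, fun t ht x i j => ?_⟩
  have htT : t ∈ Ico 0 T₁ := ⟨ht.1, ht.2.trans_lt hT⟩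
  have hc : ContDiffOn ℝ 1 (fun z : ℝ × V => v z.1 z.2 i) (Ico 0 T₁ ×ˢ univ) :=
    (contDiffOn_pi.1 hv.c1) i
  obtain ⟨m, hm⟩ := exists_cube x
  have hp : Per (pd j (fun y => v t y i)) := by
    have : Per (fun y => v t y i) := fun k x => by simp only [hv.per t htT k x]
    exact this.pd j
  rw [← hp.int m x]
  have h3 := pd_slice1 (f := fun t y => v t y i) hc htT j (x + fun i => (m i : ℝ))
  change pd j (fun y => v t y i) _ = _ at h3
  rw [h3, ← Real.norm_eq_abs]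
  refine (hC i j _ ⟨ht, hm⟩).trans ((le_abs_self _).trans ?_)
  refine le_trans ?_ (Finset.single_le_sum (f := fun i => ∑ j, |C i j|)
    (fun _ _ => Finset.sum_nonneg fun _ _ => abs_nonneg _) (Finset.mem_univ i))
  exact Finset.single_le_sum (f := fun j => |C i j|) (fun _ _ => abs_nonneg _)
    (Finset.mem_univ j)

theorem Classical.trial (hv : Classical T₁ v q) (hT : T ≤ T₁) : Trial T v q := by
  have hs : ∀ t ∈ Ioo 0 T, t ∈ Ico 0 T₁ := fun t ht => ⟨ht.1.le, ht.2.trans_le hT⟩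
  refine ⟨?_, ?_, ?_, ?_, ?_, ?_⟩
  · exact hv.c1.continuousOn.mono (prod_mono (Ico_subset_Ico_right hT) subset_rfl)
  · exact hv.c1.mono (prod_mono (fun t ht => hs t ht) subset_rfl)
  · intro t ht
    rw [← contDiffOn_univ]
    exact hv.c1_q.comp (contDiff_const.prodMk contDiff_id).contDiffOn
      (fun x _ => ⟨hs t ht, mem_univ _⟩)
  · exact fun t ht => hv.per t (hs t ht)
  · exact fun t ht => hv.per_q t (hs t ht)
  · exact fun t ht => hv.divfree t (hs t ht)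

theorem Classical.bds (hv : Classical T₁ v q) (hT : T ≤ T₁) (hν : 0 ≤ ν)
    (hG : ∀ t ∈ Ioo 0 T, ∀ x i j, |pd j (fun y => v t y i) x| ≤ G) :
    Bds ν T (fun _ => G) (fun _ => 9 / 2 * ν * G ^ 2) v q := by
  have htr := hv.trial hT
  refine ⟨continuousOn_const, continuousOn_const, fun t ht i j x => ?_, fun t ht => ?_⟩
  · have h1 := abs_le.1 (hG t ht x j i)
    have h2 := abs_le.1 (hG t ht x i j)
    unfold str
    rw [abs_le]
    constructor <;> linarith [h1.1, h1.2, h2.1, h2.2]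
  · have h1 : ∀ i x, resid v q t i x = 0 := fun i x => by
      unfold resid
      rw [hv.momentum t ⟨ht.1, ht.2.trans_le hT⟩ x i]
      ring
    simp_rw [h1]
    have h2 : ∀ i j, ∫ x in cube, pd j (fun y => v t y i) x ^ 2 ≤ G ^ 2 := by
      intro i j
      have c1 : Continuous (pd j (fun y => v t y i)) := (htr.cp ht i).pd_cont j
      have h3 : ∫ x in cube, pd j (fun y => v t y i) x ^ 2 ≤ ∫ _ in cube, G ^ 2 := by
        refine integral_mono (integrableOn_cube (c1.fun_pow 2))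
          (integrableOn_cube continuous_const) fun x => ?_
        have h4 := hG t ht x i j
        rw [← sq_abs]
        exact pow_le_pow_left₀ (abs_nonneg _) h4 2
      refine h3.trans (le_of_eq ?_)
      rw [integral_const, Measure.real, Measure.restrict_apply_univ, volume_cube]
      simp
    have h5 : grad2 (v t) ≤ 9 * G ^ 2 := by
      unfold grad2
      calc _ ≤ ∑ _ : Fin 3, ∑ _ : Fin 3, G ^ 2 :=
            Finset.sum_le_sum fun i _ => Finset.sum_le_sum fun j _ => h2 i j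
        _ = _ := by simp; ring
    have h6 : ν / 2 * grad2 (v t) ≤ ν / 2 * (9 * G ^ 2) :=
      mul_le_mul_of_nonneg_left h5 (by positivity)
    have h7 : (∑ _ : Fin 3, ∫ _ in cube, (0 : ℝ) ^ 2) = 0 := by simp
    rw [h7, mul_zero, zero_add]
    refine h6.trans (le_of_eq ?_)
    ring

end

/-- the uniform bound -/
theorem quant {m : ℕ} (hm : 3 ≤ m) {R T : ℝ} (hT : 0 < T) (𝒦 : Set (V → V))
    (h𝒦 : ∀ b ∈ 𝒦, HBall m R b)
    (hQ : ∀ a, HBall m R a → (∀ δ > 0, ∃ b ∈ 𝒦, dst b a < δ) →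
      ∃ T₁ > T, ∃ v q, Classical T₁ v q ∧ v 0 = a) :
    ∃ K ν₀ : ℝ, 0 < ν₀ ∧ ∀ ν T' u p, 0 ≤ ν → ν ≤ ν₀ → T' ≤ T → IsSol ν T' u p →
      u 0 ∈ 𝒦 → ∀ t ∈ Ico 0 T', dsq (u t) ≤ K := by
  by_contra hcon
  push Not at hcon
  choose ν T' u p hν0 hν1 hT' hsol hmem t ht hbig using
    fun n : ℕ => hcon (n : ℝ) (1 / ((n : ℝ) + 1)) (by positivity)
  have hball : ∀ n, HBall m R (u n 0) := fun n => h𝒦 _ (hmem n)
  obtain ⟨c, hc, φ, hφ, hlim⟩ := compact hm hball
  obtain ⟨T₁, hT₁, v, q, hv, hv0⟩ := hQ c hc (fun δ hδ => by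
    obtain ⟨n, hn⟩ := ((tendsto_order.1 hlim).2 δ hδ).exists
    exact ⟨_, hmem (φ n), hn⟩)
  obtain ⟨G, hG0, hG⟩ := grad_bound hv hT₁
  set R' : ℝ := |9 * (2 * Real.pi) ^ 3 * R| with hR'
  have hR'0 : 0 ≤ R' := abs_nonneg _
  have hC0 := C0_pos
  set X : ℝ := (1 + T) ^ 11 * (1 + R') ^ 10 * Real.exp (206553 * (T * G)) with hX
  have hX0 : 0 < X := by positivity
  set ε : ℝ := (C0 * X)⁻¹ with hε
  have hε0 : 0 < ε := by positivity
  set K : ℝ := (1 + R') ^ 2 * Real.exp (41310 * (T * G + 3)) with hK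
  -- a large index
  have h1 : ∀ᶠ n in atTop, dst (u (φ n) 0) c < ε ^ 2 / 2 :=
    (tendsto_order.1 hlim).2 _ (by positivity)
  have h2 : ∀ᶠ n : ℕ in atTop, T * (9 / 2 * (1 / ((n : ℝ) + 1)) * G ^ 2) < ε ^ 2 / 2 := by
    have h3 : Tendsto (fun n : ℕ => T * (9 / 2 * (1 / ((n : ℝ) + 1)) * G ^ 2)) atTop
        (𝓝 (T * (9 / 2 * 0 * G ^ 2))) :=
      ((tendsto_one_div_add_atTop_nhds_zero_nat.const_mul _).mul_const _).const_mul _
    refine (tendsto_order.1 h3).2 _ ?_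
    simp only [mul_zero, zero_mul]
    positivity
  have h4 : ∀ᶠ n : ℕ in atTop, K < (n : ℝ) := by
    obtain ⟨N, hN⟩ := exists_nat_gt K
    filter_upwards [eventually_ge_atTop N] with n hn
    exact hN.trans_le (by exact_mod_cast hn)
  obtain ⟨n, hn1, hn2, hn4⟩ := (h1.and ((hφ.tendsto_atTop.eventually h2).and
    (hφ.tendsto_atTop.eventually h4))).exists
  set k := φ n with hk
  have hT'0 : 0 < T' k := (ht k).1.trans_lt (ht k).2
  have hTT : T' k ≤ T₁ := (hT' k).trans hT₁.le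
  have hzero : (0 : ℝ) ∈ Ico 0 (T' k) := ⟨le_rfl, hT'0⟩
  have hbds := hv.bds (T := T' k) (ν := ν k) hTT (hν0 k)
    (fun s hs x i j => hG s ⟨hs.1.le, hs.2.le.trans (hT' k)⟩ x i j)
  have hdsq : dsq (u k 0) ≤ R' ^ 2 := by
    have := (hball k).dsq_le hm (fun i => (hsol k).sp hzero i)
    rwa [hR', sq_abs]
  have hint : ∀ s ∈ Ico 0 (T' k), ∀ w : ℝ, 0 ≤ w → ∫ _ in (0 : ℝ)..s, w ≤ T * w := by
    intro s hs w hw
    rw [intervalIntegral.integral_const, sub_zero, smul_eq_mul]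
    exact mul_le_mul_of_nonneg_right (hs.2.le.trans (hT' k)) hw
  have hclose : C0 * (ε * (1 + T' k) ^ 11 * (1 + R') ^ 10 * Real.exp (206553 * (T * G))) ≤ 1 := by
    have e1 : (1 + T' k) ^ 11 ≤ (1 + T) ^ 11 :=
      pow_le_pow_left₀ (add_nonneg zero_le_one hT'0.le) (add_le_add_right (hT' k) 1) 11
    calc C0 * (ε * (1 + T' k) ^ 11 * (1 + R') ^ 10 * Real.exp (206553 * (T * G)))
        ≤ C0 * (ε * (1 + T) ^ 11 * (1 + R') ^ 10 * Real.exp (206553 * (T * G))) := by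
          gcongr
      _ = (C0 * X) * ε := by rw [hX]; ac_rfl
      _ = 1 := by rw [hε]; exact mul_inv_cancel₀ (by positivity)
  have hfin := core (hν0 k) (hsol k) (hv.trial hTT) hbds (Γ := T * G) (ε := ε) (R := R') hR'0
    hε0.le (fun s hs => hint s hs G hG0) (fun s hs => ?_) hdsq hclose (t k) (ht k)
  · exact absurd (hbig k) (not_lt.2 (hfin.trans hn4.le))
  · have e2 : 0 ≤ 9 / 2 * ν k * G ^ 2 := by
      have := hν0 k
      positivity
    have e3 := hint s hs _ e2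
    have e4 : T * (9 / 2 * ν k * G ^ 2) ≤ T * (9 / 2 * (1 / ((k : ℝ) + 1)) * G ^ 2) := by
      have := hν1 k
      gcongr
    rw [hv0]
    clear hclose
    linarith [hn1, hn2]

end Pool.Agent.L5helper80.AP
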