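import Pool.Agent.L5helper80.AP.Sob

/-!
# A quantitative form of the question of global regularity for the Euler equations

The question is whether for all `m ≥ 3` all data in `H^m` (periodic, divergence-free) have global
classical solutions. If this is true for all data in one ball of `H^m` up to a time beyond `T`, then
there is a bound for the `H³` norm on `[0, T]`, the same for all smooth solutions with data in this
ball, and even for the Navier-Stokes equations with small viscosities. So for a negative answer it
suffices to find smooth solutions `uₙ` of the Euler equations (or of the Navier-Stokes equations
with viscosities tending to `0`) on bounded time intervals, with bounded norms of the data in `H^m`,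
whose `H³` norms are unbounded; moreover the singular datum is a limit of the data of `uₙ` in `L²`.
The theorem is stated for arbitrary sets `𝒦` of data in the ball; only the data in the ball which
are limits of elements of `𝒦` in `L²` need classical solutions.

Proof: a posteriori estimate (`Pool.Agent.L5helper80.AP.core`): if `v` is `C¹` and the strain of `v`
is bounded, a smooth solution `u` which is close to `v` in `L²` at time `0` stays close in `L²`
(energy estimate). The average of the strain of `u` over a ball of radius `r` is bounded by the
average of the strain of `v` and `r^(-5/2)` times the distance in `L²`, and the difference between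
the strain and its average by `r^(1/4)` times the `L²` norm of the third derivatives; so the strain
of `u` is bounded as long as the third derivatives satisfy a bound which the energy estimate for the
third derivatives then improves. The bound depends on the data only through the norm in `H³` and the
distance in `L²`; balls of `H^m` are compact in `L²`.
-/

set_option autoImplicit false

open MeasureTheory Set

namespace Pool.Agent.Results.MP_b0497c_an.QuantitativeForm

open H459R3.NS Pool.Agent.L5helper80.AP

/-- **Quantitative form of global regularity.** `IsSol ν T u p`: smooth periodic solution of the
Navier-Stokes equations with viscosity `ν` (Euler equations if `ν = 0`) on `[0, T)`. `Classical`: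
`C¹` solutions of the Euler equations. `HBall m R`: the ball of radius `R` of the space of periodic
divergence-free `H^m` fields. `dst`: squared distance in `L²`. -/
theorem result {m : ℕ} (hm : 3 ≤ m) {R T : ℝ} (hT : 0 < T) (𝒦 : Set (V → V))
    (h𝒦 : ∀ b ∈ 𝒦, HBall m R b)
    (hQ : ∀ a, HBall m R a → (∀ δ > 0, ∃ b ∈ 𝒦, dst b a < δ) →
      ∃ T₁ > T, ∃ v q, Classical T₁ v q ∧ v 0 = a) :
    ∃ K ν₀ : ℝ, 0 < ν₀ ∧ ∀ ν T' u p, 0 ≤ ν → ν ≤ ν₀ → T' ≤ T → IsSol ν T' u p →
      u 0 ∈ 𝒦 → ∀ t ∈ Ico 0 T', HBall 3 K (u t) :=
  main hm hT 𝒦 h𝒦 hQ

end Pool.Agent.Results.MP_b0497c_an.QuantitativeForm
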