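import Pool.Agent.L5helper80.AP.Quant

/-!
The norm of `H³` in terms of the energy and the third derivatives.
-/

open MeasureTheory Set Filter Topology
open scoped ContDiff

namespace Pool.Agent.L5helper80.AP

open H459R3.NS H459R3.EU Pool.Agent.TH340.PS

variable {ν T : ℝ} {u : ℝ → V → V} {p : ℝ → V → ℝ}

/-- the energy does not increase -/
theorem energy_le (hν : 0 ≤ ν) (h : IsSol ν T u p) {t : ℝ} (ht : t ∈ Ico 0 T) :
    energy (u t) ≤ energy (u 0) := by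
  have h1 : AntitoneOn (fun s => energy (u s)) (Ico 0 T) := by
    refine antitoneOn_of_deriv_nonpos (convex_Ico 0 T) h.energy_continuousOn ?_ ?_
    · rw [interior_Ico]
      exact fun s hs => (h.energy_hasDerivAt hs).differentiableAt.differentiableWithinAt
    · rw [interior_Ico]
      intro s hs
      rw [(h.energy_hasDerivAt hs).deriv]
      have : 0 ≤ enstrophy (u s) :=
        Finset.sum_nonneg fun _ _ => Finset.sum_nonneg fun _ _ => integral_nonneg fun _ => sq_nonneg _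
      have : 0 ≤ 2 * ν * enstrophy (u s) := by positivity
      linarith
  exact h1 ⟨le_rfl, ht.1.trans_lt ht.2⟩ ht ht.1

theorem energy_eq {a : V → V} (hs : ∀ i, SP (fun x => a x i)) :
    energy a = ∑ i, ∑' k, ‖fr (fun x => a x i) k‖ ^ 2 := by
  unfold energy
  refine Finset.sum_congr rfl fun i _ => ?_
  rw [← n2_fr (hs i), n2_sq]

theorem sum_le_energy {a : V → V} (hs : ∀ i, SP (fun x => a x i)) (F : Finset K3) :
    ∑ k ∈ F, ∑ i, ‖fr (fun x => a x i) k‖ ^ 2 ≤ energy a := by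
  rw [energy_eq hs, Finset.sum_comm]
  exact Finset.sum_le_sum fun i _ => (summable_sq (rap_fr (hs i)).summable).sum_le_tsum F
    fun _ _ => sq_nonneg _

theorem HBall.energy_le {m : ℕ} {R : ℝ} {a : V → V} (h : HBall m R a)
    (hs : ∀ i, SP (fun x => a x i)) : energy a ≤ R ^ 2 := by
  have hsum : ∀ i, Summable fun k => ‖fr (fun x => a x i) k‖ ^ 2 := fun i =>
    summable_sq (rap_fr (hs i)).summable
  rw [energy_eq hs, ← Summable.tsum_finsetSum fun i _ => hsum i]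
  refine (summable_sum fun i _ => hsum i).tsum_le_of_sum_le fun F => ?_
  refine le_trans ?_ (h.bound F)
  refine Finset.sum_le_sum fun k _ => ?_
  have h1 : 0 ≤ ∑ i, ‖fr (fun x => a x i) k‖ ^ 2 := Finset.sum_nonneg fun _ _ => sq_nonneg _
  have h2 : 1 ≤ wt k ^ m := one_le_pow₀ (one_le_wt k)
  nlinarith

theorem fr_d3 {f : V → ℝ} (hf : SP f) (i j k : Fin 3) (κ : K3) :
    ‖fr (d3 i j k f) κ‖ ^ 2 = ((2 * Real.pi) ^ 3) ^ 2
      * (((κ i : ℝ) ^ 2 * ((κ j : ℝ) ^ 2 * (κ k : ℝ) ^ 2)) * ‖fr f κ‖ ^ 2) := by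
  have hpi := Real.pi_pos
  have e2 : fr (d3 i j k f) κ
      = (2 * Real.pi * Complex.I * (κ i : ℂ)) * ((2 * Real.pi * Complex.I * (κ j : ℂ))
        * ((2 * Real.pi * Complex.I * (κ k : ℂ)) * fr f κ)) := by
    unfold d3
    rw [fr_pd ((hf.pd k).pd j), D, fr_pd (hf.pd k), D, fr_pd hf, D]
  have e3 : ∀ n : ℤ, ‖2 * (Real.pi : ℂ) * Complex.I * (n : ℂ)‖ ^ 2
      = (2 * Real.pi) ^ 2 * (n : ℝ) ^ 2 := by
    intro n
    rw [norm_mul, norm_mul, norm_mul, Complex.norm_I, mul_one, Complex.norm_real,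
      Real.norm_eq_abs, abs_of_pos hpi, Complex.norm_ofNat, Complex.norm_intCast, mul_pow,
      sq_abs]
  have e4 : ∀ z1 z2 z3 w : ℂ, ‖z1 * (z2 * (z3 * w))‖ ^ 2
      = ‖z1‖ ^ 2 * (‖z2‖ ^ 2 * (‖z3‖ ^ 2 * ‖w‖ ^ 2)) := by
    intro z1 z2 z3 w
    rw [norm_mul, norm_mul, norm_mul]
    ring
  rw [e2, e4, e3, e3, e3]
  ring

/-- the third derivatives control the highest part of the norm -/
theorem sum_le_dsq {a : V → V} (hs : ∀ i, SP (fun x => a x i)) (F : Finset K3) :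
    ∑ k ∈ F, (∑ j, (k j : ℝ) ^ 2) ^ 3 * ∑ i, ‖fr (fun x => a x i) k‖ ^ 2 ≤ dsq a := by
  have hpi := Real.pi_gt_three
  have h1 : ∀ l i j k, ∑ κ ∈ F, ((κ i : ℝ) ^ 2 * ((κ j : ℝ) ^ 2 * (κ k : ℝ) ^ 2))
      * ‖fr (fun y => a y l) κ‖ ^ 2 ≤ ∫ x in cube, d3 i j k (fun y => a y l) x ^ 2 := by
    intro l i j k
    rw [← n2_fr (sp_d3 (hs l) i j k), n2_sq]
    refine le_trans ?_ ((summable_sq (rap_fr (sp_d3 (hs l) i j k)).summable).sum_le_tsum F
      fun _ _ => sq_nonneg _)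
    refine Finset.sum_le_sum fun κ _ => ?_
    rw [fr_d3 (hs l)]
    have h2 : 0 ≤ ((κ i : ℝ) ^ 2 * ((κ j : ℝ) ^ 2 * (κ k : ℝ) ^ 2))
      * ‖fr (fun y => a y l) κ‖ ^ 2 := by positivity
    have h3 : (1 : ℝ) ≤ ((2 * Real.pi) ^ 3) ^ 2 := by
      refine one_le_pow₀ (one_le_pow₀ ?_)
      linarith
    nlinarith
  unfold dsq
  have e1 : ∀ κ : K3, (∑ j, (κ j : ℝ) ^ 2) ^ 3 * ∑ l, ‖fr (fun x => a x l) κ‖ ^ 2
      = ∑ l, ∑ i, ∑ j, ∑ k, ((κ i : ℝ) ^ 2 * ((κ j : ℝ) ^ 2 * (κ k : ℝ) ^ 2))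
        * ‖fr (fun y => a y l) κ‖ ^ 2 := by
    intro κ
    simp only [Fin.sum_univ_three]
    ring
  simp_rw [e1]
  rw [Finset.sum_comm]
  refine Finset.sum_le_sum fun l _ => ?_
  rw [Finset.sum_comm]
  refine Finset.sum_le_sum fun i _ => ?_
  rw [Finset.sum_comm]
  refine Finset.sum_le_sum fun j _ => ?_
  rw [Finset.sum_comm]
  exact Finset.sum_le_sum fun k _ => h1 l i j k

theorem fr_div {a : V → V} (hs : ∀ i, SP (fun x => a x i))
    (hd : ∀ x, ∑ i, pd i (fun y => a y i) x = 0) (k : K3) :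
    ∑ i, (k i : ℂ) * fr (fun x => a x i) k = 0 := by
  have h1 : fr (fun x => ∑ i, pd i (fun y => a y i) x) k = 0 := by
    have : (fun x => ∑ i, pd i (fun y => a y i) x) = fun _ => (0 : ℝ) := funext hd
    rw [this]
    unfold fr fc
    simp
  have h2 : fr (fun x => ∑ i, pd i (fun y => a y i) x) k
      = ∑ i, fr (pd i (fun y => a y i)) k := by
    unfold fr fc
    rw [← integral_finsetSum _ fun i _ => (integrableOn_cube ((ee_continuous _).fun_mul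
      (contDiff_ofReal ((hs i).pd i).smooth).continuous))]
    congr 1
    funext x
    push_cast
    rw [Finset.mul_sum]
  rw [h2] at h1
  have h3 : ∀ i, fr (pd i (fun y => a y i)) k
      = (2 * Real.pi * Complex.I) * ((k i : ℂ) * fr (fun x => a x i) k) := fun i => by
    rw [fr_pd (hs i), D]
    ring
  simp_rw [h3] at h1
  rw [← Finset.mul_sum] at h1
  have h4 : (2 * Real.pi * Complex.I : ℂ) ≠ 0 := by
    have := Real.pi_ne_zero
    simp [this]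
  exact (mul_eq_zero.1 h1).resolve_left h4

theorem cube_le {x : ℝ} (hx : 0 ≤ x) : (1 + x) ^ 3 ≤ 4 * (1 + x ^ 3) := by
  nlinarith [mul_nonneg hx (sq_nonneg (x - 1)), sq_nonneg (x - 1)]

/-- the norm of `H³` -/
theorem hball_of {a : V → V} (hs : ∀ i, SP (fun x => a x i))
    (hd : ∀ x, ∑ i, pd i (fun y => a y i) x = 0) {A B K : ℝ} (hA : energy a ≤ A)
    (hB : dsq a ≤ B) (hK : 4 * A + 4 * B ≤ K ^ 2) : HBall 3 K a where
  cont := continuous_pi fun i => (hs i).cont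
  per := fun j x => funext fun i => (hs i).per j x
  div := fr_div hs hd
  bound := fun F => by
    have h1 := sum_le_energy hs F
    have h2 := sum_le_dsq hs F
    refine le_trans ?_ hK
    have h3 : ∑ k ∈ F, wt k ^ 3 * ∑ i, ‖fr (fun x => a x i) k‖ ^ 2
        ≤ ∑ k ∈ F, (4 * ∑ i, ‖fr (fun x => a x i) k‖ ^ 2
          + 4 * ((∑ j, (k j : ℝ) ^ 2) ^ 3 * ∑ i, ‖fr (fun x => a x i) k‖ ^ 2)) := by
      refine Finset.sum_le_sum fun k _ => ?_
      have h4 : wt k ^ 3 ≤ 4 * (1 + (∑ j, (k j : ℝ) ^ 2) ^ 3) :=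
        cube_le (Finset.sum_nonneg fun _ _ => sq_nonneg _)
      have h5 : 0 ≤ ∑ i, ‖fr (fun x => a x i) k‖ ^ 2 := Finset.sum_nonneg fun _ _ => sq_nonneg _
      calc _ ≤ 4 * (1 + (∑ j, (k j : ℝ) ^ 2) ^ 3) * ∑ i, ‖fr (fun x => a x i) k‖ ^ 2 :=
            mul_le_mul_of_nonneg_right h4 h5
        _ = _ := by ring
    rw [Finset.sum_add_distrib, ← Finset.mul_sum, ← Finset.mul_sum] at h3
    linarith

/-- **Quantitative form.** -/
theorem main {m : ℕ} (hm : 3 ≤ m) {R T : ℝ} (hT : 0 < T) (𝒦 : Set (V → V))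
    (h𝒦 : ∀ b ∈ 𝒦, HBall m R b)
    (hQ : ∀ a, HBall m R a → (∀ δ > 0, ∃ b ∈ 𝒦, dst b a < δ) →
      ∃ T₁ > T, ∃ v q, Classical T₁ v q ∧ v 0 = a) :
    ∃ K ν₀ : ℝ, 0 < ν₀ ∧ ∀ ν T' u p, 0 ≤ ν → ν ≤ ν₀ → T' ≤ T → IsSol ν T' u p →
      u 0 ∈ 𝒦 → ∀ t ∈ Ico 0 T', HBall 3 K (u t) := by
  obtain ⟨K, ν₀, hν₀, hK⟩ := quant hm hT 𝒦 h𝒦 hQ
  refine ⟨Real.sqrt (4 * R ^ 2 + 4 * |K|), ν₀, hν₀, fun ν T' u p h1 h2 h3 h4 h5 t ht => ?_⟩
  have h0 : (0 : ℝ) ∈ Ico 0 T' := ⟨le_rfl, ht.1.trans_lt ht.2⟩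
  have hE : energy (u t) ≤ R ^ 2 :=
    (energy_le h1 h4 ht).trans ((h𝒦 _ h5).energy_le fun i => h4.sp h0 i)
  refine hball_of (fun i => h4.sp ht i) (h4.divfree t ht) hE
    ((hK ν T' u p h1 h2 h3 h4 h5 t ht).trans (le_abs_self K)) ?_
  rw [Real.sq_sqrt (by positivity)]

end Pool.Agent.L5helper80.AP
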